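import Mathlib

/-!
# Functional calculus for self-adjoint operators on finite dimensional spaces
(helper for `MP_6f0508_an`)
-/

set_option linter.unusedSectionVars false

open Complex

namespace Pool.Agent.MP6f0508

variable {E : Type*} [NormedAddCommGroup E] [InnerProductSpace ℂ E] [CompleteSpace E]
  [FiniteDimensional ℂ E]

lemma finite_spec (a : E →L[ℂ] E) : (spectrum ℂ a).Finite := by
  have h : spectrum ℂ a = spectrum ℂ (a : E →ₗ[ℂ] E) := by
    ext z
    rw [spectrum.mem_iff, spectrum.mem_iff, ContinuousLinearMap.isUnit_iff_bijective,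
      Module.End.isUnit_iff]
    have e : ⇑(algebraMap ℂ (E →L[ℂ] E) z - a) =
        ⇑(algebraMap ℂ (E →ₗ[ℂ] E) z - (a : E →ₗ[ℂ] E)) := by
      funext v
      simp [Algebra.algebraMap_eq_smul_one]
    rw [e]
  rw [h]
  exact Module.End.finite_spectrum _

lemma contOn (a : E →L[ℂ] E) (f : ℂ → ℂ) : ContinuousOn f (spectrum ℂ a) :=
  (finite_spec a).continuousOn f

lemma contOn_image (a : E →L[ℂ] E) (f g : ℂ → ℂ) : ContinuousOn f (g '' spectrum ℂ a) :=
  ((finite_spec a).image g).continuousOn f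

/-- functional calculus of a self-adjoint operator, for arbitrary functions -/
noncomputable def fc (a : E →L[ℂ] E) (f : ℝ → ℂ) : E →L[ℂ] E := cfc (fun z : ℂ => f z.re) a

variable {a b : E →L[ℂ] E}

lemma fc_id (ha : IsSelfAdjoint a) : fc a (fun x => (x : ℂ)) = a := by
  have := ha.isStarNormal
  unfold fc
  have h : (spectrum ℂ a).EqOn (fun z : ℂ => ((z.re : ℝ) : ℂ)) (fun z => z) := by
    intro z hz
    exact (ha.mem_spectrum_eq_re hz).symm
  rw [cfc_congr h, cfc_id' ℂ a]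

lemma fc_one (ha : IsSelfAdjoint a) : fc a (fun _ => 1) = 1 := by
  have := ha.isStarNormal
  exact cfc_const_one ℂ a

lemma fc_const (ha : IsSelfAdjoint a) (c : ℂ) : fc a (fun _ => c) = c • 1 := by
  have := ha.isStarNormal
  unfold fc
  rw [cfc_const c a, Algebra.algebraMap_eq_smul_one]

lemma fc_mul (a : E →L[ℂ] E) (f g : ℝ → ℂ) : fc a (fun x => f x * g x) = fc a f * fc a g :=
  cfc_mul _ _ a (contOn a _) (contOn a _)

lemma fc_add (a : E →L[ℂ] E) (f g : ℝ → ℂ) : fc a (fun x => f x + g x) = fc a f + fc a g :=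
  cfc_add a _ _ (contOn a _) (contOn a _)

lemma fc_sub (a : E →L[ℂ] E) (f g : ℝ → ℂ) : fc a (fun x => f x - g x) = fc a f - fc a g :=
  cfc_sub _ _ a (contOn a _) (contOn a _)

lemma fc_const_mul (a : E →L[ℂ] E) (c : ℂ) (f : ℝ → ℂ) : fc a (fun x => c * f x) = c • fc a f :=
  cfc_const_mul c _ a (contOn a _)

lemma fc_star (a : E →L[ℂ] E) (f : ℝ → ℂ) : star (fc a f) = fc a (fun x => star (f x)) :=
  (cfc_star _ a).symm

lemma fc_commute (a : E →L[ℂ] E) (f g : ℝ → ℂ) : Commute (fc a f) (fc a g) :=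
  cfc_commute_cfc _ _ a

lemma fc_selfAdjoint (a : E →L[ℂ] E) {f : ℝ → ℂ} (hf : ∀ x, star (f x) = f x) :
    IsSelfAdjoint (fc a f) := by
  unfold IsSelfAdjoint
  rw [fc_star]
  simp only [hf]

lemma fc_selfAdjoint' (a : E →L[ℂ] E) (f : ℝ → ℝ) : IsSelfAdjoint (fc a (fun x => (f x : ℂ))) :=
  fc_selfAdjoint a fun x => Complex.conj_ofReal (f x)

lemma norm_fc_le (a : E →L[ℂ] E) {f : ℝ → ℂ} {c : ℝ} (hc : 0 ≤ c) (h : ∀ x, ‖f x‖ ≤ c) :
    ‖fc a f‖ ≤ c := norm_cfc_le hc fun z _ => h z.re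

lemma norm_fc_le' (ha : IsSelfAdjoint a) {f : ℝ → ℂ} {c : ℝ} (hc : 0 ≤ c)
    (h : ∀ x ∈ spectrum ℝ a, ‖f x‖ ≤ c) : ‖fc a f‖ ≤ c := by
  refine norm_cfc_le hc fun z hz => ?_
  apply h
  have h1 := ha.mem_spectrum_eq_re hz
  rw [h1] at hz
  exact spectrum.of_algebraMap_mem ℂ (by simpa using hz)

lemma fc_congr' (ha : IsSelfAdjoint a) {f g : ℝ → ℂ} (h : ∀ x ∈ spectrum ℝ a, f x = g x) :
    fc a f = fc a g := by
  apply cfc_congr
  intro z hz
  apply h
  have h1 := ha.mem_spectrum_eq_re hz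
  rw [h1] at hz
  exact spectrum.of_algebraMap_mem ℂ (by simpa using hz)

lemma fc_comp (ha : IsSelfAdjoint a) (f : ℝ → ℝ) (g : ℝ → ℂ) :
    fc (fc a (fun x => (f x : ℂ))) g = fc a (fun x => g (f x)) := by
  have := ha.isStarNormal
  unfold fc
  rw [← cfc_comp' (fun z : ℂ => g z.re) (fun z : ℂ => ((f z.re : ℝ) : ℂ)) a
    (contOn_image a _ _) (contOn a _)]
  simp only [Complex.ofReal_re]

lemma fc_commute_of (ha : IsSelfAdjoint a) (h : Commute a b) (f : ℝ → ℂ) :
    Commute (fc a f) b := by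
  apply Commute.cfc h
  rw [ha.star_eq]
  exact h

/-- `exp (i t a)` -/
noncomputable def ee (a : E →L[ℂ] E) (t : ℝ) : E →L[ℂ] E := NormedSpace.exp (t • (I • a))

lemma ee_eq_fc (ha : IsSelfAdjoint a) (t : ℝ) :
    ee a t = fc a (fun x => Complex.exp (t * I * x)) := by
  have hn := ha.isStarNormal
  unfold ee fc
  have h1 : (t • (I • a) : E →L[ℂ] E) = ((t : ℂ) * I) • a := by
    rw [mul_smul, Complex.coe_smul]
  have hn2 : IsStarNormal (((t : ℂ) * I) • a) := by
    constructor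
    rw [star_smul]
    exact (hn.star_comm_self.smul_left _).smul_right _
  rw [h1, ← CFC.complex_exp_eq_normedSpace_exp hn2,
    ← cfc_comp_smul ((t : ℂ) * I) _ a ((contOn_image a _ _))]
  apply cfc_congr
  intro z hz
  have := ha.mem_spectrum_eq_re hz
  simp only [smul_eq_mul]
  rw [← this]

end Pool.Agent.MP6f0508
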