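import Pool.Agent.MP6f0508.Vec

/-!
# Cayley transforms (helper for `MP_6f0508_an`)
-/

set_option linter.unusedSectionVars false

open Complex MeasureTheory
open scoped InnerProductSpace

namespace Pool.Agent.MP6f0508

variable {E : Type*} [NormedAddCommGroup E] [InnerProductSpace ℂ E] [CompleteSpace E]
  [FiniteDimensional ℂ E]

lemma re_inner_S {S : E →L[ℂ] E} {δ : ℝ} (hδ : ‖S - 1‖ ≤ δ) (v : E) :
    (1 - δ) * ‖v‖ ^ 2 ≤ (⟪v, S v⟫_ℂ).re := by
  have h1 : S v = v + (S - 1) v := by simp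
  rw [h1, inner_add_right, Complex.add_re, inner_self_eq_norm_sq_to_K]
  have h2 : ‖⟪v, (S - 1) v⟫_ℂ‖ ≤ δ * ‖v‖ ^ 2 := by
    calc ‖⟪v, (S - 1) v⟫_ℂ‖ ≤ ‖v‖ * ‖(S - 1) v‖ := norm_inner_le_norm _ _
      _ ≤ ‖v‖ * (‖S - 1‖ * ‖v‖) := by
          gcongr
          exact (S - 1).le_opNorm v
      _ ≤ ‖v‖ * (δ * ‖v‖) := by gcongr
      _ = δ * ‖v‖ ^ 2 := by ring
  have h3 : -‖⟪v, (S - 1) v⟫_ℂ‖ ≤ (⟪v, (S - 1) v⟫_ℂ).re := by
    have := Complex.abs_re_le_norm ⟪v, (S - 1) v⟫_ℂ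
    exact (abs_le.1 this).1
  have h4 : ((RCLike.ofReal ‖v‖ : ℂ) ^ 2).re = ‖v‖ ^ 2 := by
    have h6 : ((RCLike.ofReal ‖v‖ : ℂ)) = ((‖v‖ : ℝ) : ℂ) := rfl
    rw [h6]
    norm_cast
  rw [h4]
  linarith

lemma inner_star_right (S : E →L[ℂ] E) (u v : E) : ⟪u, star S v⟫_ℂ = ⟪S u, v⟫_ℂ := by
  rw [ContinuousLinearMap.star_eq_adjoint, ContinuousLinearMap.adjoint_inner_right]

lemma norm_unitary_apply {W : E →L[ℂ] E} (h : star W * W = 1) (v : E) : ‖W v‖ = ‖v‖ := by
  have h1 := inner_star_mul_self W v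
  rw [h, one_apply_eq_self, inner_self_eq_norm_sq_to_K] at h1
  have h6 : ((RCLike.ofReal ‖v‖ : ℂ)) = ((‖v‖ : ℝ) : ℂ) := rfl
  rw [h6] at h1
  have h2 : ‖v‖ ^ 2 = ‖W v‖ ^ 2 := by exact_mod_cast h1
  have h3 := congrArg Real.sqrt h2
  rw [Real.sqrt_sq (norm_nonneg _), Real.sqrt_sq (norm_nonneg _)] at h3
  exact h3.symm

lemma norm_W_add_one {S P W : E →L[ℂ] E} {δ : ℝ} (hδ : ‖S - 1‖ ≤ δ) (hδ1 : δ < 1)
    (hPs : IsSelfAdjoint P) (hS : S = W * P) (hW : star W * W = 1)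
    (hP : ∀ v : E, (1 - δ) * ‖v‖ ^ 2 ≤ (⟪v, P v⟫_ℂ).re) (v : E) :
    2 * ‖v‖ ^ 2 ≤ ‖(W + 1) v‖ ^ 2 := by
  have hm : 0 < 1 - δ := by linarith
  set G := W + star W with hG
  have hGs : IsSelfAdjoint G := by
    unfold IsSelfAdjoint
    rw [hG, star_add, star_star, add_comm]
  have hstarS : star S = P * star W := by rw [hS, star_mul, hPs.star_eq]
  have hPG : P * G + G * P = (S + star S) + star W * (S + star S) * W := by
    have e1 : star W * (S + star S) * W = P * W + star W * P := by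
      rw [mul_add, add_mul]
      congr 1
      · rw [hS, ← mul_assoc, hW, one_mul]
      · rw [hstarS]
        calc star W * (P * star W) * W = star W * P * (star W * W) := by simp only [mul_assoc]
          _ = star W * P := by rw [hW, mul_one]
    rw [e1, hstarS, hS, hG, mul_add, add_mul]
    abel
  have hSS : ∀ u : E, 2 * (1 - δ) * ‖u‖ ^ 2 ≤ (⟪u, (S + star S) u⟫_ℂ).re := by
    intro u
    rw [_root_.add_apply, inner_add_right, Complex.add_re, inner_star_right]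
    have h1 := re_inner_S hδ u
    have h2 : (⟪S u, u⟫_ℂ).re = (⟪u, S u⟫_ℂ).re := by
      rw [← inner_conj_symm, Complex.conj_re]
    rw [h2]
    linarith
  have hspec : ∀ x ∈ spectrum ℝ G, 0 < x := by
    intro x hx
    obtain ⟨u, hu0, hu⟩ := exists_eigenvector hx
    have h1 := lyapunov_eigen (P := P) hGs hu
    rw [hPG, _root_.add_apply, inner_add_right] at h1
    have h2 : ⟪u, (star W * (S + star S) * W) u⟫_ℂ = ⟪W u, (S + star S) (W u)⟫_ℂ := by
      rw [mul_assoc, mul_apply_eq_comp, inner_star_right, mul_apply_eq_comp]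
    rw [h2] at h1
    have h3 := congrArg Complex.re h1
    rw [Complex.add_re] at h3
    have h4 : (2 * (x : ℂ) * ⟪u, P u⟫_ℂ).re = 2 * x * (⟪u, P u⟫_ℂ).re := by
      have : (2 * (x : ℂ)) = ((2 * x : ℝ) : ℂ) := by push_cast; rfl
      rw [this, Complex.re_ofReal_mul]
    rw [h4] at h3
    have h5 := hSS u
    have h6 := hSS (W u)
    rw [norm_unitary_apply hW] at h6
    have hu2 : 0 < ‖u‖ ^ 2 := by positivity
    have h7 := hP u
    have h8 : 0 < (⟪u, P u⟫_ℂ).re := lt_of_lt_of_le (by positivity) h7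
    have h9 : 0 < 2 * x * (⟪u, P u⟫_ℂ).re := by
      rw [← h3]
      have : 0 < 2 * (1 - δ) * ‖u‖ ^ 2 := by positivity
      linarith
    have h10 : 0 < 2 * x := (pos_iff_pos_of_mul_pos h9).2 h8
    linarith
  set R := fr G Real.sqrt with hR
  have hRs : IsSelfAdjoint R := fr_selfAdjoint _ _
  have hRR : star R * R = G := by
    rw [hRs.star_eq, hR, ← fr_mul]
    have : fr G (fun x => Real.sqrt x * Real.sqrt x) = fr G (fun x => x) := by
      apply fc_congr' hGs
      intro x hx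
      beta_reduce
      rw [Real.mul_self_sqrt (hspec x hx).le]
    rw [this, fr_id hGs]
  have h1 := inner_star_mul_self R v
  rw [hRR, hG, _root_.add_apply, inner_add_right, inner_star_right] at h1
  have h2 := congrArg Complex.re h1
  rw [Complex.add_re, Complex.ofReal_re] at h2
  have h3 : (⟪v, W v⟫_ℂ).re = (⟪W v, v⟫_ℂ).re := by
    rw [← inner_conj_symm, Complex.conj_re]
  have h4 : ‖(W + 1) v‖ ^ 2 = ‖W v‖ ^ 2 + 2 * (⟪W v, v⟫_ℂ).re + ‖v‖ ^ 2 := by
    have : (W + 1) v = W v + v := by simp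
    rw [this]
    exact norm_add_sq (𝕜 := ℂ) (W v) v
  rw [h4, norm_unitary_apply hW]
  nlinarith [sq_nonneg ‖R v‖]

lemma exists_cayley {S P W : E →L[ℂ] E} {δ : ℝ} (hδ : ‖S - 1‖ ≤ δ) (hδ1 : δ < 1)
    (hPs : IsSelfAdjoint P) (hS : S = W * P) (hW : star W * W = 1)
    (hP : ∀ v : E, (1 - δ) * ‖v‖ ^ 2 ≤ (⟪v, P v⟫_ℂ).re) :
    ∃ K : E →L[ℂ] E, IsSelfAdjoint K ∧ W * (1 - I • K) = 1 + I • K ∧
      ∀ T : E →L[ℂ] E, ‖K * T - T * K‖ ≤ ‖W * T - T * W‖ := by
  have hlow := norm_W_add_one hδ hδ1 hPs hS hW hP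
  have hinj : Function.Injective ⇑(W + 1 : E →L[ℂ] E) := by
    intro u v huv
    have h1 := hlow (u - v)
    rw [map_sub, huv, sub_self, norm_zero] at h1
    have h2 : ‖u - v‖ ^ 2 ≤ 0 := by nlinarith
    have h3 : ‖u - v‖ = 0 := by
      have := sq_nonneg ‖u - v‖
      exact pow_eq_zero_iff (two_ne_zero) |>.1 (le_antisymm h2 this)
    exact sub_eq_zero.1 (norm_eq_zero.1 h3)
  have hbij : Function.Bijective ⇑(W + 1 : E →L[ℂ] E) :=
    ⟨hinj, (LinearMap.injective_iff_surjective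
      (f := ((W + 1 : E →L[ℂ] E) : E →ₗ[ℂ] E))).1 hinj⟩
  have hunit : IsUnit (W + 1 : E →L[ℂ] E) := ContinuousLinearMap.isUnit_iff_bijective.2 hbij
  obtain ⟨B, hB1, hB2⟩ : ∃ B : E →L[ℂ] E, (W + 1) * B = 1 ∧ B * (W + 1) = 1 := by
    obtain ⟨u, hu⟩ := hunit
    exact ⟨↑u⁻¹, by rw [← hu]; exact u.mul_inv, by rw [← hu]; exact u.inv_mul⟩
  have hBn : ‖B‖ * ‖B‖ ≤ 1 / 2 := by
    have h1 : ‖B‖ ≤ Real.sqrt (1 / 2) := by
      apply ContinuousLinearMap.opNorm_le_bound _ (Real.sqrt_nonneg _)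
      intro v
      have h2 := hlow (B v)
      have h3 : (W + 1) (B v) = v := by
        rw [← mul_apply_eq_comp, hB1, one_apply_eq_self]
      rw [h3] at h2
      have h4 : ‖B v‖ ^ 2 ≤ (Real.sqrt (1 / 2) * ‖v‖) ^ 2 := by
        rw [mul_pow, Real.sq_sqrt (by norm_num)]
        linarith
      exact (pow_le_pow_iff_left₀ (norm_nonneg _) (by positivity) two_ne_zero).1 h4
    calc ‖B‖ * ‖B‖ ≤ Real.sqrt (1 / 2) * Real.sqrt (1 / 2) := by
          have := norm_nonneg B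
          gcongr
      _ = 1 / 2 := Real.mul_self_sqrt (by norm_num)
  have hstarB : star B = B * W := by
    have h1 : star B * (star W + 1) = 1 := by
      have := congrArg star hB1
      rw [star_mul, star_add, star_one] at this
      exact this
    have h2 : star W + 1 = star W * (W + 1) := by rw [mul_add, hW, mul_one, add_comm]
    rw [h2] at h1
    have h3 : star B * star W = B := by
      calc star B * star W = star B * star W * ((W + 1) * B) := by rw [hB1, mul_one]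
        _ = (star B * (star W * (W + 1))) * B := by simp only [mul_assoc]
        _ = B := by rw [h1, one_mul]
    calc star B = star B * (star W * W) := by rw [hW, mul_one]
      _ = (star B * star W) * W := by rw [mul_assoc]
      _ = B * W := by rw [h3]
  have hBW : B + B * W = 1 := by
    rw [← hB2, mul_add, mul_one, add_comm]
  refine ⟨(-I) • (1 - (2 : ℂ) • B), ?_, ?_, ?_⟩
  · unfold IsSelfAdjoint
    rw [star_smul, star_sub, star_one, star_smul, hstarB]
    have e1 : star (-I) = I := by simp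
    have e2 : star (2 : ℂ) = 2 := by simp
    rw [e1, e2]
    have e3 : B * W = 1 - B := by rw [← hBW]; abel
    rw [e3, smul_sub, smul_sub, smul_sub, smul_sub]
    module
  · have e1 : I • ((-I) • (1 - (2 : ℂ) • B)) = 1 - (2 : ℂ) • B := by
      rw [smul_smul]
      simp
    rw [e1]
    have e2 : W * B = 1 - B := by
      have := hB1
      rw [add_mul, one_mul] at this
      rw [← this]; abel
    have e3 : (1 : E →L[ℂ] E) - (1 - (2 : ℂ) • B) = (2 : ℂ) • B := by abel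
    rw [e3, mul_smul_comm, e2]
    module
  · intro T
    have e1 : (-I) • (1 - (2 : ℂ) • B) * T - T * ((-I) • (1 - (2 : ℂ) • B)) =
        (2 * I) • (B * T - T * B) := by
      simp only [smul_mul_assoc, mul_smul_comm, sub_mul, mul_sub, one_mul, mul_one, smul_sub]
      module
    have e2 : B * T - T * B = B * (T * W - W * T) * B := by
      have h1 : B * (T * W - W * T) * B = B * (T * (W + 1) - (W + 1) * T) * B := by
        congr 2
        rw [mul_add, add_mul, mul_one, one_mul]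
        abel
      rw [h1, mul_sub, sub_mul]
      have h2 : B * (T * (W + 1)) * B = B * T * ((W + 1) * B) := by simp only [mul_assoc]
      have h3 : B * ((W + 1) * T) * B = (B * (W + 1)) * T * B := by simp only [mul_assoc]
      rw [h2, h3, hB1, hB2, mul_one, one_mul]
    rw [e1, e2, norm_smul]
    have e3 : ‖(2 * I : ℂ)‖ = 2 := by simp
    rw [e3]
    have e4 : ‖B * (T * W - W * T) * B‖ ≤ ‖B‖ * ‖W * T - T * W‖ * ‖B‖ := by
      rw [norm_sub_rev (W * T)]
      exact (norm_mul_le _ _).trans (mul_le_mul_of_nonneg_right (norm_mul_le _ _) (norm_nonneg _))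
    have e5 : ‖B‖ * ‖W * T - T * W‖ * ‖B‖ = (‖B‖ * ‖B‖) * ‖W * T - T * W‖ := by ring
    rw [e5] at e4
    have e6 : (‖B‖ * ‖B‖) * ‖W * T - T * W‖ ≤ 1 / 2 * ‖W * T - T * W‖ := by gcongr
    linarith

/-! ### The Cayley path -/

lemma one_sub_ne (y : ℝ) : (1 : ℂ) - y * I ≠ 0 := by
  intro h
  have := congrArg Complex.re h
  simp at this

lemma one_add_ne (y : ℝ) : (1 : ℂ) + y * I ≠ 0 := by
  intro h
  have := congrArg Complex.re h
  simp at this

/-- the resolvent `(1 - i r K)⁻¹` -/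
noncomputable def rs (K : E →L[ℂ] E) (r : ℝ) : E →L[ℂ] E :=
  fc K (fun x => 1 / (1 - ((r * x : ℝ) : ℂ) * I))

variable {K T : E →L[ℂ] E}

lemma norm_rs_le (K : E →L[ℂ] E) (r : ℝ) : ‖rs K r‖ ≤ 1 := by
  apply norm_fc_le _ zero_le_one
  intro x
  rw [norm_div, norm_one, div_le_one (norm_pos_iff.2 (one_sub_ne _))]
  have := Complex.abs_re_le_norm (1 - ((r * x : ℝ) : ℂ) * I)
  simpa using this

lemma rs_mul (hK : IsSelfAdjoint K) (r : ℝ) : rs K r * (1 - ((r : ℂ) * I) • K) = 1 := by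
  have h1 : 1 - ((r : ℂ) * I) • K = fc K (fun x => 1 - ((r : ℂ) * I) * (x : ℂ)) := by
    rw [fc_sub, fc_const_mul, fc_id hK, fc_one hK]
  rw [h1]
  unfold rs
  rw [← fc_mul, ← fc_one hK]
  congr 1
  funext x
  have h2 : (1 : ℂ) - (r : ℂ) * I * (x : ℂ) = 1 - ((r * x : ℝ) : ℂ) * I := by
    push_cast; ring
  rw [h2]
  exact div_mul_cancel₀ _ (one_sub_ne _)

lemma mul_rs (hK : IsSelfAdjoint K) (r : ℝ) : (1 - ((r : ℂ) * I) • K) * rs K r = 1 :=
  mul_eq_one_symm (rs_mul hK r)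

/-- commutator with a resolvent -/
lemma rs_comm (hK : IsSelfAdjoint K) (r : ℝ) (T : E →L[ℂ] E) :
    rs K r * T - T * rs K r = ((r : ℂ) * I) • (rs K r * (K * T - T * K) * rs K r) := by
  have h1 : rs K r * T - T * rs K r =
      rs K r * (T * (1 - ((r : ℂ) * I) • K) - (1 - ((r : ℂ) * I) • K) * T) * rs K r := by
    rw [mul_sub, sub_mul]
    have h2 : rs K r * (T * (1 - ((r : ℂ) * I) • K)) * rs K r =
        rs K r * T * ((1 - ((r : ℂ) * I) • K) * rs K r) := by simp only [mul_assoc]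
    have h3 : rs K r * ((1 - ((r : ℂ) * I) • K) * T) * rs K r =
        (rs K r * (1 - ((r : ℂ) * I) • K)) * T * rs K r := by simp only [mul_assoc]
    rw [h2, h3, mul_rs hK, rs_mul hK, mul_one, one_mul]
  rw [h1]
  have h4 : T * (1 - ((r : ℂ) * I) • K) - (1 - ((r : ℂ) * I) • K) * T =
      ((r : ℂ) * I) • (K * T - T * K) := by
    simp only [mul_sub, sub_mul, mul_one, one_mul, mul_smul_comm, smul_mul_assoc, smul_sub]
    abel
  rw [h4, mul_smul_comm, smul_mul_assoc]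

lemma norm_K_rs_comm (hK : IsSelfAdjoint K) (r : ℝ) (T : E →L[ℂ] E) :
    ‖(K * rs K r) * T - T * (K * rs K r)‖ ≤ ‖K * T - T * K‖ := by
  have h0 : rs K r = 1 + ((r : ℂ) * I) • (K * rs K r) := by
    have := mul_rs hK r
    rw [sub_mul, one_mul, smul_mul_assoc] at this
    rw [← this]
    abel
  have h1 : (K * rs K r) * T - T * (K * rs K r) =
      K * (rs K r * T - T * rs K r) + (K * T - T * K) * rs K r := by
    rw [mul_sub, sub_mul]
    simp only [mul_assoc]
    abel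
  have h2 : (K * rs K r) * T - T * (K * rs K r) = rs K r * (K * T - T * K) * rs K r := by
    rw [h1, rs_comm hK, mul_smul_comm]
    have h3 : ((r : ℂ) * I) • (K * (rs K r * (K * T - T * K) * rs K r)) +
        (K * T - T * K) * rs K r =
        (1 + ((r : ℂ) * I) • (K * rs K r)) * ((K * T - T * K) * rs K r) := by
      rw [add_mul, one_mul, smul_mul_assoc]
      simp only [mul_assoc]
      abel
    rw [h3, ← h0]
    simp only [mul_assoc]
  rw [h2]
  have h4 := norm_rs_le K r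
  calc ‖rs K r * (K * T - T * K) * rs K r‖ ≤ ‖rs K r‖ * ‖K * T - T * K‖ * ‖rs K r‖ :=
        (norm_mul_le _ _).trans (mul_le_mul_of_nonneg_right (norm_mul_le _ _) (norm_nonneg _))
    _ ≤ 1 * ‖K * T - T * K‖ * 1 := by
        have := norm_nonneg (rs K r)
        gcongr
    _ = _ := by ring

/-- `K / (1 + r² K²)` -/
lemma norm_g_comm (hK : IsSelfAdjoint K) (r : ℝ) (T : E →L[ℂ] E) :
    ‖fr K (fun x => x / (1 + r ^ 2 * x ^ 2)) * T - T * fr K (fun x => x / (1 + r ^ 2 * x ^ 2))‖ ≤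
      ‖K * T - T * K‖ := by
  have h1 : fr K (fun x => x / (1 + r ^ 2 * x ^ 2)) =
      (1 / 2 : ℂ) • (K * rs K r + K * rs K (-r)) := by
    have e : ∀ f : ℝ → ℂ, K * fc K f = fc K (fun x => (x : ℂ) * f x) := fun f => by
      rw [fc_mul, fc_id hK]
    unfold rs fr
    rw [e, e, ← fc_add, ← fc_const_mul]
    congr 1
    funext x
    have e1 := one_sub_ne (r * x)
    have e2 := one_add_ne (r * x)
    have e3 : (1 : ℂ) - ((-r * x : ℝ) : ℂ) * I = 1 + ((r * x : ℝ) : ℂ) * I := by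
      push_cast; ring
    have e4 : ((1 + r ^ 2 * x ^ 2 : ℝ) : ℂ) =
        (1 - ((r * x : ℝ) : ℂ) * I) * (1 + ((r * x : ℝ) : ℂ) * I) := by
      push_cast
      have : (I : ℂ) ^ 2 = -1 := Complex.I_sq
      linear_combination ((r : ℂ) ^ 2 * (x : ℂ) ^ 2) * this
    rw [e3, Complex.ofReal_div, e4]
    field_simp
    ring
  rw [h1]
  have h2 : (1 / 2 : ℂ) • (K * rs K r + K * rs K (-r)) * T -
      T * ((1 / 2 : ℂ) • (K * rs K r + K * rs K (-r))) =
      (1 / 2 : ℂ) • (((K * rs K r) * T - T * (K * rs K r)) +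
        ((K * rs K (-r)) * T - T * (K * rs K (-r)))) := by
    rw [smul_mul_assoc, mul_smul_comm, ← smul_sub, add_mul, mul_add]
    congr 1
    abel
  rw [h2, norm_smul]
  have h3 : ‖(1 / 2 : ℂ)‖ = 1 / 2 := by norm_num
  rw [h3]
  have h4 := norm_K_rs_comm hK r T
  have h5 := norm_K_rs_comm hK (-r) T
  have h6 := norm_add_le ((K * rs K r) * T - T * (K * rs K r))
    ((K * rs K (-r)) * T - T * (K * rs K (-r)))
  linarith

/-- Cayley transform of a self-adjoint operator -/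
noncomputable def cay (t x : ℝ) : ℂ := (1 + ((t * x : ℝ) : ℂ) * I) / (1 - ((t * x : ℝ) : ℂ) * I)

lemma star_cay (t x : ℝ) : star (cay t x) * cay t x = 1 := by
  unfold cay
  have e1 := one_sub_ne (t * x)
  have e2 := one_add_ne (t * x)
  rw [Complex.star_def, map_div₀, map_add, map_sub, map_mul, Complex.conj_ofReal, Complex.conj_I,
    map_one]
  have e3 : (1 : ℂ) + ((t * x : ℝ) : ℂ) * -I = 1 - ((t * x : ℝ) : ℂ) * I := by ring
  have e4 : (1 : ℂ) - ((t * x : ℝ) : ℂ) * -I = 1 + ((t * x : ℝ) : ℂ) * I := by ring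
  rw [e3, e4]
  field_simp

lemma norm_cay_comm {M : E →L[ℂ] E} (hM : IsSelfAdjoint M) (T : E →L[ℂ] E) :
    ‖fc M (cay 1) * T - T * fc M (cay 1)‖ ≤ 2 * ‖M * T - T * M‖ := by
  have h1 : fc M (cay 1) = (2 : ℂ) • rs M 1 - 1 := by
    unfold rs
    rw [← fc_const_mul, ← fc_one hM, ← fc_sub]
    congr 1
    funext x
    unfold cay
    have e1 := one_sub_ne (1 * x)
    have e2 : (1 : ℂ) + ((1 * x : ℝ) : ℂ) * I = 2 - (1 - ((1 * x : ℝ) : ℂ) * I) := by ring
    rw [e2, sub_div, div_self e1]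
    ring
  have h2 : fc M (cay 1) * T - T * fc M (cay 1) = (2 : ℂ) • (rs M 1 * T - T * rs M 1) := by
    rw [h1, sub_mul, mul_sub, one_mul, mul_one, smul_mul_assoc, mul_smul_comm, smul_sub]
    abel
  rw [h2, norm_smul, rs_comm hM, norm_smul]
  have h3 : ‖(2 : ℂ)‖ = 2 := by norm_num
  have h5 : ‖(((1 : ℝ) : ℂ) * I)‖ = 1 := by simp
  rw [h3, h5, one_mul]
  have h4 := norm_rs_le M 1
  have h6 : ‖rs M 1 * (M * T - T * M) * rs M 1‖ ≤ 1 * ‖M * T - T * M‖ * 1 :=
    ((norm_mul_le _ _).trans (mul_le_mul_of_nonneg_right (norm_mul_le _ _)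
      (norm_nonneg _))).trans (by
        have := norm_nonneg (rs M 1)
        gcongr)
  linarith

/-- The unitary path. -/
noncomputable def wp (K : E →L[ℂ] E) (t : ℝ) : E →L[ℂ] E := fc K (cay t)

lemma star_wp_mul (hK : IsSelfAdjoint K) (t : ℝ) : star (wp K t) * wp K t = 1 := by
  unfold wp
  rw [fc_star, ← fc_mul, ← fc_one hK]
  congr 1
  funext x
  exact star_cay t x

lemma wp_mul_star (hK : IsSelfAdjoint K) (t : ℝ) : wp K t * star (wp K t) = 1 :=
  mul_eq_one_symm (star_wp_mul hK t)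

lemma wp_zero (hK : IsSelfAdjoint K) : wp K 0 = 1 := by
  unfold wp
  rw [← fc_one hK]
  congr 1
  funext x
  unfold cay
  simp

lemma wp_one (hK : IsSelfAdjoint K) {W : E →L[ℂ] E} (hW : W * (1 - I • K) = 1 + I • K) :
    wp K 1 = W := by
  have h1 : (1 + I • K) = fc K (fun x => 1 + I * (x : ℂ)) := by
    rw [fc_add, fc_const_mul, fc_id hK, fc_one hK]
  have h2 := mul_rs hK 1
  have h3 : (((1 : ℝ) : ℂ) * I) • K = I • K := by simp
  rw [h3] at h2
  have h4 : W = (1 + I • K) * rs K 1 := by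
    rw [← hW, mul_assoc, h2, mul_one]
  rw [h4, h1]
  unfold rs wp
  rw [← fc_mul]
  congr 1
  funext x
  unfold cay
  push_cast
  rw [one_mul, mul_comm I (x : ℂ)]
  ring

lemma norm_unitary_le {V : E →L[ℂ] E} (h : star V * V = 1) : ‖V‖ ≤ 1 := by
  apply ContinuousLinearMap.opNorm_le_bound _ zero_le_one
  intro v
  rw [norm_unitary_apply h, one_mul]

lemma norm_star_unitary_le {V : E →L[ℂ] E} (h : star V * V = 1) : ‖star V‖ ≤ 1 := by
  rw [norm_star]
  exact norm_unitary_le h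

lemma conj_lipschitz (hK : IsSelfAdjoint K) (T : E →L[ℂ] E) {s t : ℝ} (hs : 0 ≤ s) (ht : 0 ≤ t) :
    ‖wp K t * T * star (wp K t) - wp K s * T * star (wp K s)‖ ≤
      2 * ‖K * T - T * K‖ * |t - s| := by
  set r := Real.sqrt (s * t) with hr
  have hr2 : r ^ 2 = s * t := Real.sq_sqrt (by positivity)
  let M : E →L[ℂ] E := fr K (fun x => (t - s) * (x / (1 + r ^ 2 * x ^ 2)))
  have hM : IsSelfAdjoint M := fr_selfAdjoint _ _
  have hMK : M = ((t - s : ℝ) : ℂ) • fr K (fun x => x / (1 + r ^ 2 * x ^ 2)) := fr_const_mul _ _ _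
  set V := star (wp K s) * wp K t with hV
  have hVM : V = fc M (cay 1) := by
    have h1 := fc_comp hK (fun x => (t - s) * (x / (1 + r ^ 2 * x ^ 2))) (cay 1)
    change fc M (cay 1) = _ at h1
    rw [h1, hV]
    unfold wp
    rw [fc_star, ← fc_mul]
    congr 1
    funext x
    unfold cay
    have e1 := one_sub_ne (s * x)
    have e2 := one_add_ne (s * x)
    have e3 := one_sub_ne (t * x)
    rw [Complex.star_def, map_div₀, map_add, map_sub, map_mul, Complex.conj_ofReal,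
      Complex.conj_I, map_one]
    have e4 : (1 : ℂ) + ((s * x : ℝ) : ℂ) * -I = 1 - ((s * x : ℝ) : ℂ) * I := by ring
    have e5 : (1 : ℂ) - ((s * x : ℝ) : ℂ) * -I = 1 + ((s * x : ℝ) : ℂ) * I := by ring
    rw [e4, e5]
    have hpos : (0 : ℝ) < 1 + r ^ 2 * x ^ 2 := by positivity
    have e6 := one_sub_ne (1 * ((t - s) * (x / (1 + r ^ 2 * x ^ 2))))
    have hD : ((1 + r ^ 2 * x ^ 2 : ℝ) : ℂ) ≠ 0 := by exact_mod_cast hpos.ne'
    have hI : (I : ℂ) ^ 2 = -1 := Complex.I_sq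
    have k1 : ((1 + r ^ 2 * x ^ 2 : ℝ) : ℂ) *
        (1 - ((1 * ((t - s) * (x / (1 + r ^ 2 * x ^ 2))) : ℝ) : ℂ) * I) =
        (1 + ((s * x : ℝ) : ℂ) * I) * (1 - ((t * x : ℝ) : ℂ) * I) := by
      have k0 : ((1 + r ^ 2 * x ^ 2 : ℝ) : ℂ) * ((1 * ((t - s) * (x / (1 + r ^ 2 * x ^ 2))) : ℝ) : ℂ) =
          (((t - s) * x : ℝ) : ℂ) := by
        rw [← Complex.ofReal_mul]
        congr 1
        field_simp
      rw [mul_sub, mul_one, ← mul_assoc, k0, hr2]
      push_cast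
      linear_combination ((s : ℂ) * t * (x : ℂ) ^ 2) * hI
    have k2 : ((1 + r ^ 2 * x ^ 2 : ℝ) : ℂ) *
        (1 + ((1 * ((t - s) * (x / (1 + r ^ 2 * x ^ 2))) : ℝ) : ℂ) * I) =
        (1 - ((s * x : ℝ) : ℂ) * I) * (1 + ((t * x : ℝ) : ℂ) * I) := by
      have k0 : ((1 + r ^ 2 * x ^ 2 : ℝ) : ℂ) * ((1 * ((t - s) * (x / (1 + r ^ 2 * x ^ 2))) : ℝ) : ℂ) =
          (((t - s) * x : ℝ) : ℂ) := by
        rw [← Complex.ofReal_mul]
        congr 1
        field_simp
      rw [mul_add, mul_one, ← mul_assoc, k0, hr2]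
      push_cast
      linear_combination ((s : ℂ) * t * (x : ℂ) ^ 2) * hI
    rw [div_mul_div_comm, ← k1, ← k2, mul_div_mul_left _ _ hD]
  have hcomm : ‖V * T - T * V‖ ≤ 2 * ‖K * T - T * K‖ * |t - s| := by
    rw [hVM]
    refine (norm_cay_comm hM T).trans ?_
    have h1 : M * T - T * M = ((t - s : ℝ) : ℂ) •
        (fr K (fun x => x / (1 + r ^ 2 * x ^ 2)) * T -
          T * fr K (fun x => x / (1 + r ^ 2 * x ^ 2))) := by
      rw [hMK, smul_mul_assoc, mul_smul_comm, smul_sub]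
    rw [h1, norm_smul, Complex.norm_real, Real.norm_eq_abs]
    have h2 := norm_g_comm hK r T
    have h3 : |t - s| * ‖fr K (fun x => x / (1 + r ^ 2 * x ^ 2)) * T -
          T * fr K (fun x => x / (1 + r ^ 2 * x ^ 2))‖ ≤ |t - s| * ‖K * T - T * K‖ := by gcongr
    linarith
  have hs1 := star_wp_mul hK s
  have hs2 := wp_mul_star hK s
  have ht1 := star_wp_mul hK t
  have ht2 := wp_mul_star hK t
  have hfac : wp K t * T * star (wp K t) - wp K s * T * star (wp K s) =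
      wp K s * (V * T - T * V) * star (wp K t) := by
    rw [hV, mul_sub, sub_mul]
    congr 1
    · calc wp K t * T * star (wp K t) = (wp K s * star (wp K s)) * wp K t * T * star (wp K t) := by
            rw [hs2, one_mul]
        _ = _ := by simp only [mul_assoc]
    · calc wp K s * T * star (wp K s) = wp K s * T * star (wp K s) * (wp K t * star (wp K t)) := by
            rw [ht2, mul_one]
        _ = _ := by simp only [mul_assoc]
  rw [hfac]
  calc ‖wp K s * (V * T - T * V) * star (wp K t)‖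
      ≤ ‖wp K s‖ * ‖V * T - T * V‖ * ‖star (wp K t)‖ :=
        (norm_mul_le _ _).trans (mul_le_mul_of_nonneg_right (norm_mul_le _ _) (norm_nonneg _))
    _ ≤ 1 * ‖V * T - T * V‖ * 1 := by
        have h1 := norm_unitary_le hs1
        have h2 := norm_star_unitary_le ht1
        gcongr
    _ ≤ _ := by rw [one_mul, mul_one]; exact hcomm

end Pool.Agent.MP6f0508
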