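import Mathlib

/-!
# Normal paths and the constants `w_n` (definitions for `MP_6f0508_an`)

Matrices carry the `L²` operator norm.
-/

open scoped Matrix.Norms.L2Operator ENNReal

namespace Pool.Agent.MP6f0508

/-- `γ` (restricted to `[0,1]`) is a normal path from `A` to `B`: it is continuous on `[0,1]`,
`γ 0 = A`, `γ 1 = B`, and `γ t` is normal for every `t ∈ [0,1]`. -/
structure IsNormalPath {n : ℕ} (A B : Matrix (Fin n) (Fin n) ℂ)
    (γ : ℝ → Matrix (Fin n) (Fin n) ℂ) : Prop where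
  continuousOn : ContinuousOn γ (Set.Icc 0 1)
  source : γ 0 = A
  target : γ 1 = B
  normal : ∀ t ∈ Set.Icc (0 : ℝ) 1, IsStarNormal (γ t)

/-- The arclength of `γ` on `[0,1]` with respect to the operator norm. -/
noncomputable def pathLength {n : ℕ} (γ : ℝ → Matrix (Fin n) (Fin n) ℂ) : ℝ≥0∞ :=
  eVariationOn γ (Set.Icc (0 : ℝ) 1)

/-- The least length (as an infimum) of a normal path from `A` to `B`. -/
noncomputable def normalDist {n : ℕ} (A B : Matrix (Fin n) (Fin n) ℂ) : ℝ≥0∞ :=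
  ⨅ (γ : ℝ → Matrix (Fin n) (Fin n) ℂ) (_ : IsNormalPath A B γ), pathLength γ

/-- The constant `w_n`: the supremum of `normalDist A B` over all normal `A`, `B` of size
`n × n` with `‖A - B‖ = 1`. -/
noncomputable def w (n : ℕ) : ℝ≥0∞ :=
  ⨆ (A : Matrix (Fin n) (Fin n) ℂ) (B : Matrix (Fin n) (Fin n) ℂ) (_ : IsStarNormal A)
    (_ : IsStarNormal B) (_ : ‖A - B‖ = 1), normalDist A B

end Pool.Agent.MP6f0508
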