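import Pool.Agent.MP6f0508.Calc

/-!
# Exponentials and averages (helper for `MP_6f0508_an`)
-/

set_option linter.unusedSectionVars false

open Complex MeasureTheory

namespace Pool.Agent.MP6f0508

variable {E : Type*} [NormedAddCommGroup E] [InnerProductSpace ℂ E] [CompleteSpace E]
  [FiniteDimensional ℂ E]

variable {h k T : E →L[ℂ] E}

lemma ee_zero (h : E →L[ℂ] E) : ee h 0 = 1 := by
  unfold ee
  rw [zero_smul, NormedSpace.exp_zero]

lemma ee_add (hh : IsSelfAdjoint h) (s t : ℝ) : ee h (s + t) = ee h s * ee h t := by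
  rw [ee_eq_fc hh, ee_eq_fc hh, ee_eq_fc hh, ← fc_mul]
  congr 1
  funext x
  rw [← Complex.exp_add]
  congr 1
  push_cast
  ring

lemma ee_neg_mul (hh : IsSelfAdjoint h) (t : ℝ) : ee h (-t) * ee h t = 1 := by
  rw [← ee_add hh, neg_add_cancel, ee_zero]

lemma ee_mul_neg (hh : IsSelfAdjoint h) (t : ℝ) : ee h t * ee h (-t) = 1 := by
  rw [← ee_add hh, add_neg_cancel, ee_zero]

lemma norm_exp_I (t x : ℝ) : ‖Complex.exp (t * I * x)‖ = 1 := by
  have : (t : ℂ) * I * x = ((t * x : ℝ) : ℂ) * I := by push_cast; ring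
  rw [this, Complex.norm_exp_ofReal_mul_I]

lemma norm_ee_le (hh : IsSelfAdjoint h) (t : ℝ) : ‖ee h t‖ ≤ 1 := by
  rw [ee_eq_fc hh]
  apply norm_fc_le _ zero_le_one
  intro x
  rw [norm_exp_I]

lemma star_ee (hh : IsSelfAdjoint h) (t : ℝ) : star (ee h t) = ee h (-t) := by
  rw [ee_eq_fc hh, ee_eq_fc hh, fc_star]
  congr 1
  funext x
  rw [Complex.star_def, ← Complex.exp_conj]
  congr 1
  simp only [map_mul, Complex.conj_ofReal, Complex.conj_I, Complex.ofReal_neg]
  ring

lemma ee_commute (hh : IsSelfAdjoint h) (t : ℝ) : Commute (ee h t) h := by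
  rw [ee_eq_fc hh]
  exact fc_commute_of hh (Commute.refl h) _

lemma ee_commute_of (hh : IsSelfAdjoint h) (hc : Commute h T) (t : ℝ) : Commute (ee h t) T := by
  rw [ee_eq_fc hh]
  exact fc_commute_of hh hc _

lemma hasDerivAt_ee (h : E →L[ℂ] E) (t : ℝ) : HasDerivAt (ee h) (ee h t * (I • h)) t :=
  hasDerivAt_exp_smul_const (𝕂 := ℝ) (I • h) t

lemma continuous_ee (h : E →L[ℂ] E) : Continuous (ee h) :=
  continuous_iff_continuousAt.2 fun t => (hasDerivAt_ee h t).continuousAt

/-- the twisted conjugation -/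
noncomputable def tw (h k T : E →L[ℂ] E) (t : ℝ) : E →L[ℂ] E := ee h t * T * ee k (-t)

lemma continuous_tw (h k T : E →L[ℂ] E) : Continuous (tw h k T) := by
  unfold tw
  exact ((continuous_ee h).mul continuous_const).mul ((continuous_ee k).comp continuous_neg)

lemma norm_tw_le (hh : IsSelfAdjoint h) (hk : IsSelfAdjoint k) (T : E →L[ℂ] E) (t : ℝ) :
    ‖tw h k T t‖ ≤ ‖T‖ := by
  unfold tw
  calc ‖ee h t * T * ee k (-t)‖ ≤ ‖ee h t‖ * ‖T‖ * ‖ee k (-t)‖ :=
        (norm_mul_le _ _).trans (mul_le_mul_of_nonneg_right (norm_mul_le _ _) (norm_nonneg _))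
    _ ≤ 1 * ‖T‖ * 1 := by
        have h1 := norm_ee_le hh t
        have h2 := norm_ee_le hk (-t)
        have h3 := norm_nonneg T
        have h4 := norm_nonneg (ee h t)
        have h5 := norm_nonneg (ee k (-t))
        gcongr
    _ = ‖T‖ := by ring

lemma hasDerivAt_tw (hh : IsSelfAdjoint h) (hk : IsSelfAdjoint k) (T : E →L[ℂ] E) (t : ℝ) :
    HasDerivAt (tw h k T) (tw h k (I • (h * T - T * k)) t) t := by
  have h1 := hasDerivAt_ee h t
  have h2 : HasDerivAt (fun t => ee k (-t)) (-(ee k (-t) * (I • k))) t :=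
    ((hasDerivAt_ee k (-t)).scomp t (hasDerivAt_neg t)).congr_deriv (by rw [neg_one_smul])
  have h3 := (h1.mul_const T).mul h2
  refine h3.congr_deriv ?_
  unfold tw
  have hc := (ee_commute hk (-t)).eq
  have hc2 := (ee_commute hh t).eq
  simp only [mul_smul_comm, smul_mul_assoc, mul_neg, mul_sub, sub_mul, smul_sub]
  rw [hc]
  simp only [mul_assoc]
  abel

lemma norm_tw_sub_le (hh : IsSelfAdjoint h) (hk : IsSelfAdjoint k) (T : E →L[ℂ] E) (t : ℝ) :
    ‖tw h k T t - T‖ ≤ ‖h * T - T * k‖ * |t| := by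
  have h0 : tw h k T 0 = T := by
    unfold tw
    rw [neg_zero, ee_zero, ee_zero, one_mul, mul_one]
  have h1 := Convex.norm_image_sub_le_of_norm_hasDerivWithin_le (𝕜 := ℝ) (f := tw h k T)
    (f' := fun t => tw h k (I • (h * T - T * k)) t) (s := Set.univ) (x := 0) (y := t)
    (C := ‖h * T - T * k‖)
    (fun x _ => (hasDerivAt_tw hh hk T x).hasDerivWithinAt)
    (fun x _ => by
      refine (norm_tw_le hh hk _ x).trans ?_
      rw [norm_smul, Complex.norm_I, one_mul])
    convex_univ (Set.mem_univ _) (Set.mem_univ _)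
  rw [h0, sub_zero, Real.norm_eq_abs] at h1
  exact h1

lemma norm_ee_mul_sub_le (hh : IsSelfAdjoint h) (hk : IsSelfAdjoint k) (T : E →L[ℂ] E) (t : ℝ) :
    ‖ee h t * T - T * ee k t‖ ≤ ‖h * T - T * k‖ * |t| := by
  have h1 : ee h t * T - T * ee k t = (tw h k T t - T) * ee k t := by
    unfold tw
    rw [sub_mul, mul_assoc, ee_neg_mul hk, mul_one]
  rw [h1]
  calc ‖(tw h k T t - T) * ee k t‖ ≤ ‖tw h k T t - T‖ * ‖ee k t‖ := norm_mul_le _ _
    _ ≤ ‖tw h k T t - T‖ * 1 := mul_le_mul_of_nonneg_left (norm_ee_le hk t) (norm_nonneg _)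
    _ ≤ _ := by rw [mul_one]; exact norm_tw_sub_le hh hk T t

lemma norm_ee_sub_le (hh : IsSelfAdjoint h) (hk : IsSelfAdjoint k) (t : ℝ) :
    ‖ee h t - ee k t‖ ≤ ‖h - k‖ * |t| := by
  have := norm_ee_mul_sub_le hh hk 1 t
  simpa using this

/-! ### Averages -/

/-- The average of the twisted conjugations. -/
noncomputable def av (h k T : E →L[ℂ] E) : E →L[ℂ] E :=
  ∫ t in (-(1 / 2) : ℝ)..(1 / 2), tw h k T (2 * Real.pi * t)

lemma continuous_tw' (h k T : E →L[ℂ] E) : Continuous fun t : ℝ => tw h k T (2 * Real.pi * t) :=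
  (continuous_tw h k T).comp (continuous_const.mul continuous_id)

lemma intervalIntegrable_tw (h k T : E →L[ℂ] E) (a b : ℝ) :
    IntervalIntegrable (fun t : ℝ => tw h k T (2 * Real.pi * t)) volume a b :=
  (continuous_tw' h k T).intervalIntegrable _ _

lemma norm_av_le (hh : IsSelfAdjoint h) (hk : IsSelfAdjoint k) (T : E →L[ℂ] E) :
    ‖av h k T‖ ≤ ‖T‖ := by
  have := intervalIntegral.norm_integral_le_of_norm_le_const (a := -(1 / 2)) (b := 1 / 2)
    (f := fun t : ℝ => tw h k T (2 * Real.pi * t)) (C := ‖T‖)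
    (fun t _ => norm_tw_le hh hk T _)
  unfold av
  norm_num at this ⊢
  exact this

lemma tw_add (h k T S : E →L[ℂ] E) (t : ℝ) : tw h k (T + S) t = tw h k T t + tw h k S t := by
  unfold tw
  rw [mul_add, add_mul]

lemma tw_sub (h k T S : E →L[ℂ] E) (t : ℝ) : tw h k (T - S) t = tw h k T t - tw h k S t := by
  unfold tw
  rw [mul_sub, sub_mul]

lemma av_add (h k T S : E →L[ℂ] E) : av h k (T + S) = av h k T + av h k S := by
  unfold av
  simp only [tw_add]
  exact intervalIntegral.integral_add (intervalIntegrable_tw _ _ _ _ _)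
    (intervalIntegrable_tw _ _ _ _ _)

lemma av_sub (h k T S : E →L[ℂ] E) : av h k (T - S) = av h k T - av h k S := by
  unfold av
  simp only [tw_sub]
  exact intervalIntegral.integral_sub (intervalIntegrable_tw _ _ _ _ _)
    (intervalIntegrable_tw _ _ _ _ _)

lemma av_smul (h k T : E →L[ℂ] E) (c : ℂ) : av h k (c • T) = c • av h k T := by
  unfold av
  rw [← intervalIntegral.integral_smul]
  congr 1
  funext t
  unfold tw
  simp only [mul_smul_comm, smul_mul_assoc]

lemma av_eq_self (hk : IsSelfAdjoint k) (hh : IsSelfAdjoint h) (hT : h * T = T * k) :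
    av h k T = T := by
  have h1 : ∀ t, tw h k T t = T := by
    intro t
    have := norm_tw_sub_le hh hk T t
    rw [hT, sub_self, norm_zero, zero_mul] at this
    exact sub_eq_zero.1 (norm_le_zero_iff.1 this)
  unfold av
  simp only [h1]
  rw [intervalIntegral.integral_const]
  norm_num

lemma norm_av_sub_le (hh : IsSelfAdjoint h) (hk : IsSelfAdjoint k) (T : E →L[ℂ] E) :
    ‖av h k T - T‖ ≤ Real.pi / 2 * ‖h * T - T * k‖ := by
  have h1 : av h k T - T = ∫ t in (-(1 / 2) : ℝ)..(1 / 2), (tw h k T (2 * Real.pi * t) - T) := by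
    rw [intervalIntegral.integral_sub (intervalIntegrable_tw _ _ _ _ _)
      (intervalIntegrable_const), intervalIntegral.integral_const]
    unfold av
    norm_num
  rw [h1]
  have h2 : ‖∫ t in (-(1 / 2) : ℝ)..(1 / 2), (tw h k T (2 * Real.pi * t) - T)‖ ≤
      ∫ t in (-(1 / 2) : ℝ)..(1 / 2), ‖h * T - T * k‖ * (2 * Real.pi * |t|) := by
    apply intervalIntegral.norm_integral_le_of_norm_le (by norm_num)
    · refine Filter.Eventually.of_forall fun t _ => ?_
      refine (norm_tw_sub_le hh hk T _).trans (le_of_eq ?_)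
      rw [abs_mul, abs_of_pos (by positivity : (0 : ℝ) < 2 * Real.pi)]
    · exact Continuous.intervalIntegrable (by fun_prop) _ _
  refine h2.trans (le_of_eq ?_)
  rw [intervalIntegral.integral_const_mul, intervalIntegral.integral_const_mul]
  have h3 : ∫ t in (-(1 / 2) : ℝ)..(1 / 2), |t| = 1 / 4 := by
    have e1 : ∫ t in (-(1 / 2) : ℝ)..0, |t| = 1 / 8 := by
      have : ∫ t in (-(1 / 2) : ℝ)..0, |t| = ∫ t in (-(1 / 2) : ℝ)..0, -t := by
        apply intervalIntegral.integral_congr
        intro t ht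
        rw [Set.uIcc_of_le (by norm_num)] at ht
        exact abs_of_nonpos ht.2
      rw [this, intervalIntegral.integral_neg, integral_id]
      norm_num
    have e2 : ∫ t in (0 : ℝ)..(1 / 2), |t| = 1 / 8 := by
      have : ∫ t in (0 : ℝ)..(1 / 2), |t| = ∫ t in (0 : ℝ)..(1 / 2), t := by
        apply intervalIntegral.integral_congr
        intro t ht
        rw [Set.uIcc_of_le (by norm_num)] at ht
        exact abs_of_nonneg ht.1
      rw [this, integral_id]
      norm_num
    rw [← intervalIntegral.integral_add_adjacent_intervals (b := (0 : ℝ))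
      (Continuous.intervalIntegrable (by fun_prop) _ _)
      (Continuous.intervalIntegrable (by fun_prop) _ _), e1, e2]
    norm_num
  rw [h3]
  ring

/-- the average intertwines, for operators with integer spectrum -/
lemma av_intertwine (hh : IsSelfAdjoint h) (hk : IsSelfAdjoint k)
    (h1 : ee h (2 * Real.pi) = 1) (k1 : ee k (2 * Real.pi) = 1) (T : E →L[ℂ] E) :
    h * av h k T = av h k T * k := by
  have hper : tw h k T (2 * Real.pi * (1 / 2)) = tw h k T (2 * Real.pi * (-(1 / 2))) := by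
    have e1 : ee h (2 * Real.pi * (1 / 2)) = ee h (2 * Real.pi * (-(1 / 2))) := by
      have : (2 * Real.pi * (1 / 2) : ℝ) = 2 * Real.pi + 2 * Real.pi * (-(1 / 2)) := by ring
      rw [this, ee_add hh, h1, one_mul]
    have e2 : ee k (-(2 * Real.pi * (-(1 / 2)))) = ee k (-(2 * Real.pi * (1 / 2))) := by
      have : (-(2 * Real.pi * (-(1 / 2))) : ℝ) = 2 * Real.pi + -(2 * Real.pi * (1 / 2)) := by
        ring
      rw [this, ee_add hk, k1, one_mul]
    unfold tw
    rw [e1, e2]
  have hd : ∀ t : ℝ, HasDerivAt (fun t : ℝ => tw h k T (2 * Real.pi * t))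
      ((2 * Real.pi) • tw h k (I • (h * T - T * k)) (2 * Real.pi * t)) t := by
    intro t
    exact ((hasDerivAt_tw hh hk T (2 * Real.pi * t)).scomp t
      ((hasDerivAt_id t).const_mul (2 * Real.pi))).congr_deriv (by rw [mul_one])
  have hint := intervalIntegral.integral_eq_sub_of_hasDerivAt (a := -(1 / 2)) (b := 1 / 2)
    (fun t _ => hd t)
    (((continuous_tw' h k (I • (h * T - T * k))).const_smul (2 * Real.pi)).intervalIntegrable _ _)
  rw [hper, sub_self, intervalIntegral.integral_smul] at hint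
  have h2 : ∫ t in (-(1 / 2) : ℝ)..(1 / 2), tw h k (I • (h * T - T * k)) (2 * Real.pi * t) = 0 := by
    rcases smul_eq_zero.1 hint with h | h
    · exfalso
      have := Real.pi_pos
      linarith
    · exact h
  have h3 : ∀ t, tw h k (I • (h * T - T * k)) t = I • (h * tw h k T t - tw h k T t * k) := by
    intro t
    unfold tw
    have c1 := (ee_commute hh t).eq
    have c2 := (ee_commute hk (-t)).eq
    simp only [mul_smul_comm, smul_mul_assoc, mul_sub, sub_mul]
    congr 2
    · rw [← mul_assoc, ← mul_assoc, ← mul_assoc, c1]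
    · rw [mul_assoc, mul_assoc, mul_assoc, mul_assoc, c2]
  simp only [h3] at h2
  rw [intervalIntegral.integral_smul] at h2
  have h4 : ∫ t in (-(1 / 2) : ℝ)..(1 / 2),
      (h * tw h k T (2 * Real.pi * t) - tw h k T (2 * Real.pi * t) * k) = 0 := by
    rcases smul_eq_zero.1 h2 with h | h
    · exact absurd h Complex.I_ne_zero
    · exact h
  rw [intervalIntegral.integral_sub] at h4
  · have e1 : ∫ t in (-(1 / 2) : ℝ)..(1 / 2), h * tw h k T (2 * Real.pi * t) = h * av h k T :=
      ((ContinuousLinearMap.mul ℂ (E →L[ℂ] E)) h).intervalIntegral_comp_comm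
        (intervalIntegrable_tw _ _ _ _ _)
    have e2 : ∫ t in (-(1 / 2) : ℝ)..(1 / 2), tw h k T (2 * Real.pi * t) * k = av h k T * k :=
      ((ContinuousLinearMap.mul ℂ (E →L[ℂ] E)).flip k).intervalIntegral_comp_comm
        (intervalIntegrable_tw _ _ _ _ _)
    rw [e1, e2] at h4
    exact sub_eq_zero.1 h4
  · exact (continuous_const.mul (continuous_tw' h k T)).intervalIntegrable _ _
  · exact ((continuous_tw' h k T).mul continuous_const).intervalIntegrable _ _

/-- If `A` commutes with `k` and `B` commutes with `h` then `av` is a bimodule map. -/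
lemma av_mul_right {A : E →L[ℂ] E} (hk : IsSelfAdjoint k) (hA : Commute k A)
    (h T : E →L[ℂ] E) : av h k (T * A) = av h k T * A := by
  have e2 : ∫ t in (-(1 / 2) : ℝ)..(1 / 2), tw h k T (2 * Real.pi * t) * A = av h k T * A :=
    ((ContinuousLinearMap.mul ℂ (E →L[ℂ] E)).flip A).intervalIntegral_comp_comm
      (intervalIntegrable_tw _ _ _ _ _)
  rw [← e2]
  unfold av
  congr 1
  funext t
  unfold tw
  generalize 2 * Real.pi * t = s
  have c2 := (ee_commute_of hk hA (-s)).eq
  rw [mul_assoc, mul_assoc, mul_assoc, mul_assoc, c2]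

lemma av_mul_left {B : E →L[ℂ] E} (hh : IsSelfAdjoint h) (hB : Commute h B)
    (k T : E →L[ℂ] E) : av h k (B * T) = B * av h k T := by
  have e1 : ∫ t in (-(1 / 2) : ℝ)..(1 / 2), B * tw h k T (2 * Real.pi * t) = B * av h k T :=
    ((ContinuousLinearMap.mul ℂ (E →L[ℂ] E)) B).intervalIntegral_comp_comm
      (intervalIntegrable_tw _ _ _ _ _)
  rw [← e1]
  unfold av
  congr 1
  funext t
  unfold tw
  generalize 2 * Real.pi * t = s
  have c2 := (ee_commute_of hh hB s).eq
  rw [← mul_assoc, c2, ← mul_assoc, ← mul_assoc]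

lemma star_tw (hh : IsSelfAdjoint h) (hk : IsSelfAdjoint k) (T : E →L[ℂ] E) (t : ℝ) :
    star (tw h k T t) = tw k h (star T) t := by
  unfold tw
  rw [star_mul, star_mul, star_ee hh, star_ee hk, neg_neg, mul_assoc]

lemma star_av (hh : IsSelfAdjoint h) (hk : IsSelfAdjoint k) (T : E →L[ℂ] E) :
    star (av h k T) = av k h (star T) := by
  unfold av
  simp only [← star_tw hh hk]
  have := ((starL' ℝ : (E →L[ℂ] E) ≃L[ℝ] (E →L[ℂ] E)) :
    (E →L[ℂ] E) →L[ℝ] (E →L[ℂ] E)).intervalIntegral_comp_comm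
      (intervalIntegrable_tw h k T (-(1 / 2)) (1 / 2))
  exact this.symm

end Pool.Agent.MP6f0508
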