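import Pool.Agent.MP6f0508.Local
import Pool.Agent.MP6f0508.Defs

/-!
# The uniform bound for normal paths (helper for `MP_6f0508_an`)
-/

set_option linter.unusedSectionVars false

open Complex MeasureTheory
open scoped InnerProductSpace ComplexStarModule NNReal ENNReal

namespace Pool.Agent.MP6f0508

section CLM

variable {E : Type*} [NormedAddCommGroup E] [InnerProductSpace ℂ E] [CompleteSpace E]
  [FiniteDimensional ℂ E]

/-- Rescaled local step, for all pairs of normal operators. -/
theorem normal_path {A B : E →L[ℂ] E} (hA : IsStarNormal A) (hB : IsStarNormal B) :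
    NP A B (1150 * ‖A - B‖) := by
  rcases eq_or_ne A B with rfl | hne
  · refine ⟨fun _ => A, fun s t => ?_, rfl, rfl, fun _ => hA⟩
    rw [sub_self, norm_zero]
    exact abs_nonneg _
  · have hpos : 0 < ‖A - B‖ := norm_pos_iff.2 (sub_ne_zero.2 hne)
    set r : ℝ := (1 / 200) / ‖A - B‖ with hr
    have hr0 : 0 < r := by positivity
    have hAs : IsStarNormal ((r : ℂ) • A) := by
      constructor
      rw [star_smul]
      exact (hA.star_comm_self.smul_left _).smul_right _
    have hBs : IsStarNormal ((r : ℂ) • B) := by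
      constructor
      rw [star_smul]
      exact (hB.star_comm_self.smul_left _).smul_right _
    set a : E →L[ℂ] E := (r : ℂ) • A with ha
    set b : E →L[ℂ] E := (r : ℂ) • B with hb
    have hab : ‖a - b‖ = 1 / 200 := by
      rw [ha, hb, ← smul_sub, norm_smul, Complex.norm_real, Real.norm_eq_abs, abs_of_pos hr0, hr]
      field_simp
    have h1 : ‖(realPart a : E →L[ℂ] E) - (realPart b : E →L[ℂ] E)‖ ≤ 1 / 200 := by
      have e : (realPart a : E →L[ℂ] E) - (realPart b : E →L[ℂ] E) =
          (realPart (a - b) : E →L[ℂ] E) := by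
        rw [map_sub]; rfl
      rw [e, ← hab]
      exact realPart.norm_le (a - b)
    have h2 : ‖(imaginaryPart a : E →L[ℂ] E) - (imaginaryPart b : E →L[ℂ] E)‖ ≤ 1 / 200 := by
      have e : (imaginaryPart a : E →L[ℂ] E) - (imaginaryPart b : E →L[ℂ] E) =
          (imaginaryPart (a - b) : E →L[ℂ] E) := by
        rw [map_sub]; rfl
      rw [e, ← hab]
      exact imaginaryPart.norm_le (a - b)
    have h3 := local_path (realPart a).2 (imaginaryPart a).2 (realPart b).2 (imaginaryPart b).2
      (isStarNormal_iff_commute_realPart_imaginaryPart.1 hAs)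
      (isStarNormal_iff_commute_realPart_imaginaryPart.1 hBs) h1 h2
    rw [realPart_add_I_smul_imaginaryPart, realPart_add_I_smul_imaginaryPart] at h3
    have h4 := NP.scale hr0 h3
    have h5 : (23 / 4 : ℝ) / r = 1150 * ‖A - B‖ := by
      rw [hr]
      field_simp
      norm_num
    rw [h5] at h4
    exact h4

end CLM

open scoped Matrix.Norms.L2Operator

/-- Every pair of normal matrices is joined by a normal path of length at most
`1150 * ‖A - B‖`. -/
theorem exists_normalPath {n : ℕ} {A B : Matrix (Fin n) (Fin n) ℂ} (hA : IsStarNormal A)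
    (hB : IsStarNormal B) :
    ∃ γ, IsNormalPath A B γ ∧ pathLength γ ≤ ENNReal.ofReal (1150 * ‖A - B‖) := by
  set Φ := Matrix.toEuclideanCLM (n := Fin n) (𝕜 := ℂ) with hΦ
  have hΦA : IsStarNormal (Φ A) := by
    constructor
    rw [← map_star]
    exact hA.star_comm_self.map Φ
  have hΦB : IsStarNormal (Φ B) := by
    constructor
    rw [← map_star]
    exact hB.star_comm_self.map Φ
  obtain ⟨ρ, h1, h2, h3, h4⟩ := normal_path hΦA hΦB
  have hnorm : ∀ M : Matrix (Fin n) (Fin n) ℂ, ‖Φ M‖ = ‖M‖ := fun M =>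
    Matrix.l2_opNorm_toEuclideanCLM M
  have hinv : ∀ T, Φ (Φ.symm T) = T := fun T => Φ.apply_symm_apply T
  rw [← map_sub, hnorm] at h3
  set ℓ : ℝ := 1150 * ‖A - B‖ with hℓ
  have hℓ0 : 0 ≤ ℓ := by positivity
  set γ : ℝ → Matrix (Fin n) (Fin n) ℂ := fun t => Φ.symm (ρ (ℓ * t)) with hγ
  have hL : ∀ s t, ‖γ t - γ s‖ ≤ ℓ * |t - s| := by
    intro s t
    have e : ‖γ t - γ s‖ = ‖ρ (ℓ * t) - ρ (ℓ * s)‖ := by
      rw [← hnorm, map_sub, hγ]
      beta_reduce
      rw [hinv, hinv]
    rw [e]
    refine (h1 _ _).trans (le_of_eq ?_)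
    rw [← mul_sub, abs_mul, abs_of_nonneg hℓ0]
  have hLip : LipschitzWith (Real.toNNReal ℓ) γ := by
    refine LipschitzWith.of_dist_le_mul fun s t => ?_
    rw [dist_eq_norm, Real.dist_eq, Real.coe_toNNReal ℓ hℓ0]
    exact hL t s
  refine ⟨γ, ⟨hLip.continuous.continuousOn, ?_, ?_, fun t _ => ?_⟩, ?_⟩
  · change Φ.symm (ρ (ℓ * 0)) = A
    rw [mul_zero, h2, Φ.symm_apply_apply]
  · change Φ.symm (ρ (ℓ * 1)) = B
    rw [mul_one, h3, Φ.symm_apply_apply]
  · constructor
    have := h4 (ℓ * t)
    change Commute (star (Φ.symm (ρ (ℓ * t)))) (Φ.symm (ρ (ℓ * t)))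
    rw [← map_star]
    exact this.star_comm_self.map Φ.symm
  · have h5 := (hLip.lipschitzOnWith (s := Set.univ)).comp_eVariationOn_le (g := fun t : ℝ => t)
      (s := Set.Icc (0 : ℝ) 1) (fun _ _ => Set.mem_univ _)
    have h6 : eVariationOn (fun t : ℝ => t) (Set.Icc (0 : ℝ) 1) = ENNReal.ofReal (1 - 0) :=
      eVariationOn_id_Icc 0 1
    rw [h6, sub_zero, ENNReal.ofReal_one, mul_one] at h5
    exact h5

theorem w_le (n : ℕ) : w n ≤ 1150 := by
  unfold w
  refine iSup_le fun A => iSup_le fun B => iSup_le fun hA => iSup_le fun hB => iSup_le fun h => ?_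
  obtain ⟨γ, h1, h2⟩ := exists_normalPath hA hB
  unfold normalDist
  refine (iInf₂_le γ h1).trans (h2.trans (le_of_eq ?_))
  rw [h, mul_one]
  norm_num

end Pool.Agent.MP6f0508
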