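import Pool.Agent.MP6f0508.Exp

/-!
# The key estimate (helper for `MP_6f0508_an`)
-/

set_option linter.unusedSectionVars false

open Complex MeasureTheory

namespace Pool.Agent.MP6f0508

/-! ### Elementary inequality -/

lemma ineq_theta {θ : ℝ} (h0 : 0 ≤ θ) (h1 : θ ≤ Real.pi) :
    θ - Real.sin θ ≤ Real.pi / 2 * (1 - Real.cos θ) := by
  have hpi := Real.pi_pos
  obtain ⟨φ, rfl⟩ : ∃ φ, θ = 2 * φ := ⟨θ / 2, by ring⟩
  have hφ0 : 0 ≤ φ := by linarith
  have hφ1 : φ ≤ Real.pi / 2 := by linarith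
  rw [Real.sin_two_mul, Real.cos_two_mul]
  have hs0 : 0 ≤ Real.sin φ := Real.sin_nonneg_of_nonneg_of_le_pi hφ0 (by linarith)
  have hc0 : 0 ≤ Real.cos φ := Real.cos_nonneg_of_mem_Icc ⟨by linarith, hφ1⟩
  have hsq := Real.sin_sq_add_cos_sq φ
  have hs1 : Real.sin φ ≤ 1 := Real.sin_le_one φ
  -- Jordan
  have hj : 2 * φ ≤ Real.pi * Real.sin φ := by
    have := Real.mul_le_sin hφ0 hφ1
    have h3 : 2 / Real.pi * φ * Real.pi = 2 * φ := by field_simp
    nlinarith
  -- `φ cos φ ≤ sin φ`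
  have ht : φ * Real.cos φ ≤ Real.sin φ := by
    rcases eq_or_lt_of_le hφ1 with h | h
    · rw [h, Real.cos_pi_div_two, Real.sin_pi_div_two]; norm_num
    · have hc : 0 < Real.cos φ := Real.cos_pos_of_mem_Ioo ⟨by linarith, h⟩
      have := Real.le_tan hφ0 h
      rw [Real.tan_eq_sin_div_cos, le_div_iff₀ hc] at this
      exact this
  -- goal: `2 φ - 2 sin φ cos φ ≤ π/2 (1 - (2 cos^2 φ - 1)) = π sin^2 φ`
  have h4 : Real.pi * Real.sin φ ^ 2 ≥ 2 * φ * Real.sin φ := by nlinarith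
  have h5 : φ * Real.sin φ + Real.sin φ * Real.cos φ ≥ φ := by
    -- multiply by `1 + sin φ`
    have h6 : φ * Real.cos φ ^ 2 ≤ Real.sin φ * Real.cos φ * (1 + Real.sin φ) := by
      nlinarith [mul_nonneg hs0 hc0, mul_le_mul_of_nonneg_right ht hc0,
        mul_nonneg (mul_nonneg hs0 hc0) hs0]
    have h7 : φ * (1 - Real.sin φ) * (1 + Real.sin φ) ≤
        Real.sin φ * Real.cos φ * (1 + Real.sin φ) := by
      have : φ * (1 - Real.sin φ) * (1 + Real.sin φ) = φ * Real.cos φ ^ 2 := by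
        have : Real.cos φ ^ 2 = 1 - Real.sin φ ^ 2 := by linarith
        rw [this]; ring
      rw [this]; exact h6
    have h8 := le_of_mul_le_mul_right h7 (by linarith)
    linarith
  nlinarith

/-- the remainder `x - round x - sin (2 π x) / (2 π)` -/
noncomputable def eF (x : ℝ) : ℝ := x - round x - Real.sin (2 * Real.pi * x) / (2 * Real.pi)

lemma sin_sub_round (x : ℝ) :
    Real.sin (2 * Real.pi * x) = Real.sin (2 * Real.pi * (x - round x)) := by
  have : 2 * Real.pi * (x - round x) = 2 * Real.pi * x - (round x : ℤ) * (2 * Real.pi) := by ring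
  rw [this, Real.sin_sub_int_mul_two_pi]

lemma cos_sub_round (x : ℝ) :
    Real.cos (2 * Real.pi * x) = Real.cos (2 * Real.pi * (x - round x)) := by
  have : 2 * Real.pi * (x - round x) = 2 * Real.pi * x - (round x : ℤ) * (2 * Real.pi) := by ring
  rw [this, Real.cos_sub_int_mul_two_pi]

lemma ineq_y {y : ℝ} (hy : |y| ≤ 1 / 2) :
    |y - Real.sin (2 * Real.pi * y) / (2 * Real.pi)| ≤ (1 - Real.cos (2 * Real.pi * y)) / 4 := by
  have hpi := Real.pi_pos
  wlog h : 0 ≤ y with H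
  · have h1 := H (y := -y) (by rw [abs_neg]; exact hy) hpi (by linarith)
    rw [mul_neg, Real.sin_neg, Real.cos_neg] at h1
    have : -y - -Real.sin (2 * Real.pi * y) / (2 * Real.pi) =
        -(y - Real.sin (2 * Real.pi * y) / (2 * Real.pi)) := by ring
    rw [this, abs_neg] at h1
    exact h1
  · rw [abs_of_nonneg h] at hy
    have h1 := ineq_theta (θ := 2 * Real.pi * y) (by positivity) (by nlinarith)
    have h2 : Real.sin (2 * Real.pi * y) ≤ 2 * Real.pi * y := Real.sin_le (by positivity)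
    have h3 : y - Real.sin (2 * Real.pi * y) / (2 * Real.pi) =
        (2 * Real.pi * y - Real.sin (2 * Real.pi * y)) / (2 * Real.pi) := by
      field_simp
    rw [h3, abs_of_nonneg (div_nonneg (by linarith) (by positivity)), div_le_iff₀ (by positivity)]
    nlinarith

lemma abs_eF_le (x : ℝ) : |eF x| ≤ (1 - Real.cos (2 * Real.pi * x)) / 4 := by
  unfold eF
  rw [sin_sub_round, cos_sub_round]
  exact ineq_y (abs_sub_round x)

lemma abs_eF_le_half (x : ℝ) : |eF x| ≤ 1 / 2 := by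
  have h1 := abs_eF_le x
  have h2 := Real.neg_one_le_cos (2 * Real.pi * x)
  linarith

/-- the remainder for the integer part -/
noncomputable def gF (x : ℝ) : ℝ :=
  x - 1 / 2 - ⌊x⌋ + Real.sin (2 * Real.pi * x) / (2 * Real.pi)

lemma gF_eq (x : ℝ) : gF x = eF (x - 1 / 2) := by
  unfold gF eF
  have h1 : round (x - 1 / 2) = ⌊x⌋ := by
    rw [round_eq]
    congr 1
    ring
  have h2 : Real.sin (2 * Real.pi * (x - 1 / 2)) = - Real.sin (2 * Real.pi * x) := by
    have : 2 * Real.pi * (x - 1 / 2) = 2 * Real.pi * x - Real.pi := by ring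
    rw [this, Real.sin_sub_pi]
  rw [h1, h2]
  ring

lemma abs_gF_le (x : ℝ) : |gF x| ≤ (1 + Real.cos (2 * Real.pi * x)) / 4 := by
  rw [gF_eq]
  have h := abs_eF_le (x - 1 / 2)
  have h2 : Real.cos (2 * Real.pi * (x - 1 / 2)) = - Real.cos (2 * Real.pi * x) := by
    have : 2 * Real.pi * (x - 1 / 2) = 2 * Real.pi * x - Real.pi := by ring
    rw [this, Real.cos_sub_pi]
  rw [h2] at h
  linarith

variable {E : Type*} [NormedAddCommGroup E] [InnerProductSpace ℂ E] [CompleteSpace E]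
  [FiniteDimensional ℂ E]

/-- functional calculus with real functions -/
noncomputable def fr (a : E →L[ℂ] E) (f : ℝ → ℝ) : E →L[ℂ] E := fc a (fun x => (f x : ℂ))

variable {a b X X' : E →L[ℂ] E}

lemma fr_selfAdjoint (a : E →L[ℂ] E) (f : ℝ → ℝ) : IsSelfAdjoint (fr a f) := fc_selfAdjoint' a f

lemma fr_id (ha : IsSelfAdjoint a) : fr a (fun x => x) = a := fc_id ha

lemma fr_const (ha : IsSelfAdjoint a) (c : ℝ) : fr a (fun _ => c) = (c : ℂ) • 1 := fc_const ha _

lemma fr_mul (a : E →L[ℂ] E) (f g : ℝ → ℝ) : fr a (fun x => f x * g x) = fr a f * fr a g := by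
  unfold fr
  rw [← fc_mul]
  simp only [Complex.ofReal_mul]

lemma fr_add (a : E →L[ℂ] E) (f g : ℝ → ℝ) : fr a (fun x => f x + g x) = fr a f + fr a g := by
  unfold fr
  rw [← fc_add]
  simp only [Complex.ofReal_add]

lemma fr_sub (a : E →L[ℂ] E) (f g : ℝ → ℝ) : fr a (fun x => f x - g x) = fr a f - fr a g := by
  unfold fr
  rw [← fc_sub]
  simp only [Complex.ofReal_sub]

lemma fr_const_mul (a : E →L[ℂ] E) (c : ℝ) (f : ℝ → ℝ) :
    fr a (fun x => c * f x) = (c : ℂ) • fr a f := by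
  unfold fr
  rw [← fc_const_mul]
  simp only [Complex.ofReal_mul]

lemma norm_fr_le (a : E →L[ℂ] E) {f : ℝ → ℝ} {c : ℝ} (hc : 0 ≤ c) (h : ∀ x, |f x| ≤ c) :
    ‖fr a f‖ ≤ c :=
  norm_fc_le a hc fun x => by rw [Complex.norm_real]; exact h x

lemma fr_commute (a : E →L[ℂ] E) (f g : ℝ → ℝ) : Commute (fr a f) (fr a g) := fc_commute a _ _

lemma fr_commute_of (ha : IsSelfAdjoint a) (h : Commute a b) (f : ℝ → ℝ) :
    Commute (fr a f) b := fc_commute_of ha h _

lemma fr_comp (ha : IsSelfAdjoint a) (f g : ℝ → ℝ) :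
    fr (fr a f) g = fr a (fun x => g (f x)) := fc_comp ha f _

/-- operators with integer spectrum -/
lemma ee_int (ha : IsSelfAdjoint a) (f : ℝ → ℤ) : ee (fr a (fun x => (f x : ℝ))) (2 * Real.pi) = 1 := by
  rw [ee_eq_fc (fr_selfAdjoint _ _)]
  have := fc_comp ha (fun x => (f x : ℝ)) (fun x => Complex.exp (((2 * Real.pi : ℝ) : ℂ) * I * x))
  unfold fr
  rw [this]
  have h1 : (fun x => Complex.exp (((2 * Real.pi : ℝ) : ℂ) * I * (((f x : ℤ) : ℝ) : ℂ))) =
      fun _ => (1 : ℂ) := by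
    funext x
    have := Complex.exp_int_mul_two_pi_mul_I (f x)
    rw [← this]
    congr 1
    push_cast
    ring
  rw [h1, fc_one ha]

/-- `sin (2 π a)` -/
noncomputable def sn (a : E →L[ℂ] E) : E →L[ℂ] E := fr a (fun x => Real.sin (2 * Real.pi * x))

/-- `cos (2 π a)` -/
noncomputable def cs (a : E →L[ℂ] E) : E →L[ℂ] E := fr a (fun x => Real.cos (2 * Real.pi * x))

lemma cs_eq (ha : IsSelfAdjoint a) :
    cs a = (1 / 2 : ℂ) • (ee a (2 * Real.pi) + ee a (-(2 * Real.pi))) := by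
  unfold cs fr
  rw [ee_eq_fc ha, ee_eq_fc ha, ← fc_add, ← fc_const_mul]
  congr 1
  funext x
  rw [Complex.ofReal_cos, Complex.cos]
  push_cast
  ring_nf

lemma sn_eq (ha : IsSelfAdjoint a) :
    sn a = (-I / 2 : ℂ) • (ee a (2 * Real.pi) - ee a (-(2 * Real.pi))) := by
  unfold sn fr
  rw [ee_eq_fc ha, ee_eq_fc ha, ← fc_sub, ← fc_const_mul]
  congr 1
  funext x
  rw [Complex.ofReal_sin, Complex.sin]
  push_cast
  ring_nf

lemma norm_cs_sub_le (ha : IsSelfAdjoint a) (hb : IsSelfAdjoint b) :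
    ‖cs a - cs b‖ ≤ 2 * Real.pi * ‖a - b‖ := by
  have hpi := Real.pi_pos
  have h1 := norm_ee_sub_le ha hb (2 * Real.pi)
  have h2 := norm_ee_sub_le ha hb (-(2 * Real.pi))
  rw [abs_neg, abs_of_pos (by positivity)] at h2
  rw [abs_of_pos (by positivity)] at h1
  rw [cs_eq ha, cs_eq hb, ← smul_sub, norm_smul]
  have h3 : ‖(1 / 2 : ℂ)‖ = 1 / 2 := by norm_num
  have h4 : ee a (2 * Real.pi) + ee a (-(2 * Real.pi)) -
      (ee b (2 * Real.pi) + ee b (-(2 * Real.pi))) =
      (ee a (2 * Real.pi) - ee b (2 * Real.pi)) +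
      (ee a (-(2 * Real.pi)) - ee b (-(2 * Real.pi))) := by abel
  rw [h3, h4]
  have h5 := norm_add_le (ee a (2 * Real.pi) - ee b (2 * Real.pi))
    (ee a (-(2 * Real.pi)) - ee b (-(2 * Real.pi)))
  linarith

lemma norm_sn_sub_le (ha : IsSelfAdjoint a) (hb : IsSelfAdjoint b) :
    ‖sn a - sn b‖ ≤ 2 * Real.pi * ‖a - b‖ := by
  have hpi := Real.pi_pos
  have h1 := norm_ee_sub_le ha hb (2 * Real.pi)
  have h2 := norm_ee_sub_le ha hb (-(2 * Real.pi))
  rw [abs_neg, abs_of_pos (by positivity)] at h2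
  rw [abs_of_pos (by positivity)] at h1
  rw [sn_eq ha, sn_eq hb, ← smul_sub, norm_smul]
  have h3 : ‖(-I / 2 : ℂ)‖ = 1 / 2 := by simp
  have h4 : ee a (2 * Real.pi) - ee a (-(2 * Real.pi)) -
      (ee b (2 * Real.pi) - ee b (-(2 * Real.pi))) =
      (ee a (2 * Real.pi) - ee b (2 * Real.pi)) -
      (ee a (-(2 * Real.pi)) - ee b (-(2 * Real.pi))) := by abel
  rw [h3, h4]
  have h5 := norm_sub_le (ee a (2 * Real.pi) - ee b (2 * Real.pi))
    (ee a (-(2 * Real.pi)) - ee b (-(2 * Real.pi)))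
  linarith

/-- commutator bound -/
lemma norm_comm_le (A B : E →L[ℂ] E) : ‖A * B - B * A‖ ≤ 2 * ‖A‖ * ‖B‖ := by
  have h1 := norm_sub_le (A * B) (B * A)
  have h2 := norm_mul_le A B
  have h3 := norm_mul_le B A
  nlinarith

lemma norm_eg_le (hX : IsSelfAdjoint X) (hX' : IsSelfAdjoint X') {ε : ℝ} (hε : ‖X - X'‖ ≤ ε) :
    ‖fr X eF * fr X' gF‖ ≤ (1 / 16) * (1 + 4 * Real.pi * ε) := by
  have hpi := Real.pi_pos
  -- quotients
  let u : ℝ → ℝ := fun x => eF x / (1 - Real.cos (2 * Real.pi * x))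
  let v : ℝ → ℝ := fun x => gF x / (1 + Real.cos (2 * Real.pi * x))
  have hu : ∀ x, |u x| ≤ 1 / 4 := by
    intro x
    have h1 := abs_eF_le x
    have h2 : 0 ≤ 1 - Real.cos (2 * Real.pi * x) := by
      have := Real.cos_le_one (2 * Real.pi * x); linarith
    simp only [u]
    rw [abs_div, abs_of_nonneg h2]
    rcases eq_or_lt_of_le h2 with h | h
    · rw [← h]; norm_num
    · rw [div_le_iff₀ h]; linarith
  have hv : ∀ x, |v x| ≤ 1 / 4 := by
    intro x
    have h1 := abs_gF_le x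
    have h2 : 0 ≤ 1 + Real.cos (2 * Real.pi * x) := by
      have := Real.neg_one_le_cos (2 * Real.pi * x); linarith
    simp only [v]
    rw [abs_div, abs_of_nonneg h2]
    rcases eq_or_lt_of_le h2 with h | h
    · rw [← h]; norm_num
    · rw [div_le_iff₀ h]; linarith
  have he : fr X eF = fr X u * (1 - cs X) := by
    have h1 : (1 - cs X) = fr X (fun x => 1 - Real.cos (2 * Real.pi * x)) := by
      rw [fr_sub, fr_const hX]
      unfold cs
      simp
    rw [h1, ← fr_mul]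
    congr 1
    funext x
    simp only [u]
    by_cases h : 1 - Real.cos (2 * Real.pi * x) = 0
    · rw [h, mul_zero]
      have := abs_eF_le x
      rw [h, zero_div] at this
      exact abs_nonpos_iff.1 this
    · rw [div_mul_cancel₀ _ h]
  have hg : fr X' gF = (1 + cs X') * fr X' v := by
    have h1 : (1 + cs X') = fr X' (fun x => 1 + Real.cos (2 * Real.pi * x)) := by
      rw [fr_add, fr_const hX']
      unfold cs
      simp
    rw [h1, ← fr_mul]
    congr 1
    funext x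
    simp only [v]
    by_cases h : 1 + Real.cos (2 * Real.pi * x) = 0
    · rw [h, zero_mul]
      have := abs_gF_le x
      rw [h, zero_div] at this
      exact abs_nonpos_iff.1 this
    · rw [mul_div_cancel₀ _ h]
  have hmid : ‖(1 - cs X) * (1 + cs X')‖ ≤ 1 + 4 * Real.pi * ε := by
    have h1 : (1 - cs X) * (1 + cs X') = (1 - cs X) * (1 + cs X) + (1 - cs X) * (cs X' - cs X) := by
      rw [← mul_add]; congr 1; abel
    have h2 : (1 - cs X) * (1 + cs X) = fr X (fun x => Real.sin (2 * Real.pi * x) ^ 2) := by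
      have e1 : (1 - cs X) = fr X (fun x => 1 - Real.cos (2 * Real.pi * x)) := by
        rw [fr_sub, fr_const hX]
        unfold cs
        simp
      have e2 : (1 + cs X) = fr X (fun x => 1 + Real.cos (2 * Real.pi * x)) := by
        rw [fr_add, fr_const hX]
        unfold cs
        simp
      rw [e1, e2, ← fr_mul]
      congr 1
      funext x
      have := Real.sin_sq_add_cos_sq (2 * Real.pi * x)
      linear_combination (-1 : ℝ) * this
    have h3 : ‖(1 - cs X) * (1 + cs X)‖ ≤ 1 := by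
      rw [h2]
      apply norm_fr_le _ zero_le_one
      intro x
      rw [abs_of_nonneg (sq_nonneg _)]
      have := Real.sin_sq_add_cos_sq (2 * Real.pi * x)
      nlinarith [sq_nonneg (Real.cos (2 * Real.pi * x))]
    have h4 : ‖(1 - cs X)‖ ≤ 2 := by
      have e1 : (1 - cs X) = fr X (fun x => 1 - Real.cos (2 * Real.pi * x)) := by
        rw [fr_sub, fr_const hX]
        unfold cs
        simp
      rw [e1]
      apply norm_fr_le _ (by norm_num)
      intro x
      have h5 := Real.neg_one_le_cos (2 * Real.pi * x)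
      have h6 := Real.cos_le_one (2 * Real.pi * x)
      rw [abs_of_nonneg (by linarith)]
      linarith
    have h5 : ‖cs X' - cs X‖ ≤ 2 * Real.pi * ε := by
      rw [norm_sub_rev]
      exact (norm_cs_sub_le hX hX').trans (by gcongr)
    have h6 : ‖(1 - cs X) * (cs X' - cs X)‖ ≤ 2 * (2 * Real.pi * ε) :=
      (norm_mul_le _ _).trans (by
        have := norm_nonneg (cs X' - cs X)
        gcongr)
    rw [h1]
    refine (norm_add_le _ _).trans ?_
    linarith
  rw [he, hg]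
  have hu' : ‖fr X u‖ ≤ 1 / 4 := norm_fr_le _ (by norm_num) hu
  have hv' : ‖fr X' v‖ ≤ 1 / 4 := norm_fr_le _ (by norm_num) hv
  have hε0 : 0 ≤ ε := (norm_nonneg _).trans hε
  calc ‖fr X u * (1 - cs X) * ((1 + cs X') * fr X' v)‖
      = ‖fr X u * ((1 - cs X) * (1 + cs X')) * fr X' v‖ := by simp only [mul_assoc]
    _ ≤ ‖fr X u‖ * ‖(1 - cs X) * (1 + cs X')‖ * ‖fr X' v‖ :=
        (norm_mul_le _ _).trans (mul_le_mul_of_nonneg_right (norm_mul_le _ _) (norm_nonneg _))
    _ ≤ (1 / 4) * (1 + 4 * Real.pi * ε) * (1 / 4) := by gcongr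
    _ = _ := by ring

/-- The quantization of `X`. -/
noncomputable def rd (X : E →L[ℂ] E) : E →L[ℂ] E := fr X (fun x => ((round x : ℤ) : ℝ))

/-- The integer part of `X`. -/
noncomputable def fl (X : E →L[ℂ] E) : E →L[ℂ] E := fr X (fun x => ((⌊x⌋ : ℤ) : ℝ))

lemma rd_eq (hX : IsSelfAdjoint X) :
    rd X = X - ((1 / (2 * Real.pi) : ℝ) : ℂ) • sn X - fr X eF := by
  have h1 : X - ((1 / (2 * Real.pi) : ℝ) : ℂ) • sn X - fr X eF =
      fr X (fun x => x - (1 / (2 * Real.pi)) * Real.sin (2 * Real.pi * x) - eF x) := by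
    rw [fr_sub, fr_sub, fr_const_mul, fr_id hX]
    rfl
  rw [h1]
  unfold rd
  congr 1
  funext x
  unfold eF
  ring

lemma fl_eq (hX : IsSelfAdjoint X) :
    fl X = X - ((1 / 2 : ℝ) : ℂ) • 1 + ((1 / (2 * Real.pi) : ℝ) : ℂ) • sn X - fr X gF := by
  have h1 : X - ((1 / 2 : ℝ) : ℂ) • 1 + ((1 / (2 * Real.pi) : ℝ) : ℂ) • sn X - fr X gF =
      fr X (fun x => x - 1 / 2 + (1 / (2 * Real.pi)) * Real.sin (2 * Real.pi * x) - gF x) := by
    rw [fr_sub, fr_add, fr_sub, fr_const_mul, fr_id hX, fr_const hX]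
    rfl
  rw [h1]
  unfold fl
  congr 1
  funext x
  unfold gF
  ring

lemma norm_comm_fl_e_le (hX : IsSelfAdjoint X) (hX' : IsSelfAdjoint X') {ε : ℝ}
    (hε : ‖X - X'‖ ≤ ε) :
    ‖fl X' * fr X eF - fr X eF * fl X'‖ ≤ 2 * ε + (1 / 8 + Real.pi / 2 * ε) := by
  have hpi := Real.pi_pos
  have hε0 : 0 ≤ ε := (norm_nonneg _).trans hε
  set e := fr X eF with he
  set g := fr X' gF with hg
  have hen : ‖e‖ ≤ 1 / 2 := norm_fr_le _ (by norm_num) abs_eF_le_half
  have hc1 : X * e = e * X := (fr_commute_of hX (Commute.refl X) eF).eq.symm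
  have hc2 : sn X * e = e * sn X := (fr_commute X _ _).eq
  have hdec : fl X' * e - e * fl X' = ((X' - X) * e - e * (X' - X)) +
      ((1 / (2 * Real.pi) : ℝ) : ℂ) • ((sn X' - sn X) * e - e * (sn X' - sn X)) -
      (g * e - e * g) := by
    rw [fl_eq hX']
    simp only [sub_mul, mul_sub, add_mul, mul_add, smul_mul_assoc, mul_smul_comm, one_mul, mul_one,
      smul_sub, ← hg, hc1, hc2]
    abel
  have h1 : ‖(X' - X) * e - e * (X' - X)‖ ≤ ε := by
    refine (norm_comm_le _ _).trans ?_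
    rw [norm_sub_rev]
    nlinarith [norm_nonneg (X - X'), norm_nonneg e]
  have h2 : ‖((1 / (2 * Real.pi) : ℝ) : ℂ) • ((sn X' - sn X) * e - e * (sn X' - sn X))‖ ≤ ε := by
    rw [norm_smul, Complex.norm_real, Real.norm_eq_abs, abs_of_pos (by positivity)]
    have h3 := norm_comm_le (sn X' - sn X) e
    have h4 : ‖sn X' - sn X‖ ≤ 2 * Real.pi * ε := by
      rw [norm_sub_rev]
      exact (norm_sn_sub_le hX hX').trans (by gcongr)
    have h5 : 2 * ‖sn X' - sn X‖ * ‖e‖ ≤ 2 * (2 * Real.pi * ε) * (1 / 2) := by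
      have := norm_nonneg e
      have := norm_nonneg (sn X' - sn X)
      gcongr
    calc 1 / (2 * Real.pi) * ‖(sn X' - sn X) * e - e * (sn X' - sn X)‖
        ≤ 1 / (2 * Real.pi) * (2 * (2 * Real.pi * ε) * (1 / 2)) := by
          have := h3.trans h5
          gcongr
      _ = ε := by field_simp
  have h3 : ‖g * e - e * g‖ ≤ 1 / 8 + Real.pi / 2 * ε := by
    have h4 : ‖e * g‖ ≤ (1 / 16) * (1 + 4 * Real.pi * ε) := norm_eg_le hX hX' hε
    have h5 : ‖g * e‖ = ‖e * g‖ := by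
      have : g * e = star (e * g) := by
        rw [star_mul, (fr_selfAdjoint X' gF).star_eq, (fr_selfAdjoint X eF).star_eq]
      rw [this, norm_star]
    have h6 := norm_sub_le (g * e) (e * g)
    rw [h5] at h6
    linarith
  rw [hdec]
  have h7 := norm_sub_le (((X' - X) * e - e * (X' - X)) +
      ((1 / (2 * Real.pi) : ℝ) : ℂ) • ((sn X' - sn X) * e - e * (sn X' - sn X))) (g * e - e * g)
  have h8 := norm_add_le ((X' - X) * e - e * (X' - X))
    (((1 / (2 * Real.pi) : ℝ) : ℂ) • ((sn X' - sn X) * e - e * (sn X' - sn X)))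
  linarith

lemma fl_selfAdjoint (X : E →L[ℂ] E) : IsSelfAdjoint (fl X) := fr_selfAdjoint _ _

lemma rd_selfAdjoint (X : E →L[ℂ] E) : IsSelfAdjoint (rd X) := fr_selfAdjoint _ _

lemma norm_sub_av_le {h : E →L[ℂ] E} (hh : IsSelfAdjoint h) {T T' : E →L[ℂ] E}
    (hT' : Commute h T') {δ : ℝ} (hδ : ‖T - T'‖ ≤ δ) : ‖T - av h h T‖ ≤ 2 * δ := by
  have h1 : T - av h h T = (T - T') - av h h (T - T') := by
    rw [av_sub, av_eq_self hh hh hT'.eq]
    abel
  rw [h1]
  have h2 := norm_sub_le (T - T') (av h h (T - T'))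
  have h3 := norm_av_le hh hh (T - T')
  linarith

/-- The key estimate. -/
theorem key (hX : IsSelfAdjoint X) (hX' : IsSelfAdjoint X') {ε : ℝ} (hε : ‖X - X'‖ ≤ ε) :
    ‖rd X - av (fl X') (fl X') (rd X)‖ ≤
      4 * ε + Real.pi / 2 * (2 * ε + (1 / 8 + Real.pi / 2 * ε)) := by
  have hpi := Real.pi_pos
  have hJ := fl_selfAdjoint X'
  have c1 : Commute (fl X') X' := fr_commute_of hX' (Commute.refl X') _
  have c2 : Commute (fl X') (sn X') := fr_commute X' _ _
  have h1 : ‖X - av (fl X') (fl X') X‖ ≤ 2 * ε := norm_sub_av_le hJ c1 hε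
  have h2 : ‖sn X - av (fl X') (fl X') (sn X)‖ ≤ 2 * (2 * Real.pi * ε) :=
    norm_sub_av_le hJ c2 ((norm_sn_sub_le hX hX').trans (by gcongr))
  have h3 : ‖fr X eF - av (fl X') (fl X') (fr X eF)‖ ≤
      Real.pi / 2 * (2 * ε + (1 / 8 + Real.pi / 2 * ε)) := by
    rw [norm_sub_rev]
    refine (norm_av_sub_le hJ hJ _).trans ?_
    have := norm_comm_fl_e_le hX hX' hε
    gcongr
  have hdec : rd X - av (fl X') (fl X') (rd X) = (X - av (fl X') (fl X') X) -
      ((1 / (2 * Real.pi) : ℝ) : ℂ) • (sn X - av (fl X') (fl X') (sn X)) -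
      (fr X eF - av (fl X') (fl X') (fr X eF)) := by
    rw [rd_eq hX, av_sub, av_sub, av_smul, smul_sub]
    abel
  rw [hdec]
  have h4 : ‖((1 / (2 * Real.pi) : ℝ) : ℂ) • (sn X - av (fl X') (fl X') (sn X))‖ ≤ 2 * ε := by
    rw [norm_smul, Complex.norm_real, Real.norm_eq_abs, abs_of_pos (by positivity)]
    calc 1 / (2 * Real.pi) * ‖sn X - av (fl X') (fl X') (sn X)‖
        ≤ 1 / (2 * Real.pi) * (2 * (2 * Real.pi * ε)) := by gcongr
      _ = 2 * ε := by field_simp
  have h5 := norm_sub_le ((X - av (fl X') (fl X') X) -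
      ((1 / (2 * Real.pi) : ℝ) : ℂ) • (sn X - av (fl X') (fl X') (sn X)))
      (fr X eF - av (fl X') (fl X') (fr X eF))
  have h6 := norm_sub_le (X - av (fl X') (fl X') X)
      (((1 / (2 * Real.pi) : ℝ) : ℂ) • (sn X - av (fl X') (fl X') (sn X)))
  linarith

end Pool.Agent.MP6f0508
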