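import Pool.Agent.MP6f0508.Path

/-!
# Close normal operators are joined by a normal path of bounded length
(helper for `MP_6f0508_an`)
-/

set_option linter.unusedSectionVars false
set_option linter.unusedVariables false

open Complex MeasureTheory
open scoped InnerProductSpace ComplexStarModule

namespace Pool.Agent.MP6f0508

variable {E : Type*} [NormedAddCommGroup E] [InnerProductSpace ℂ E] [CompleteSpace E]
  [FiniteDimensional ℂ E]

lemma norm_rd_sub_self (X : E →L[ℂ] E) (hX : IsSelfAdjoint X) : ‖rd X - X‖ ≤ 1 / 2 := by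
  have h1 : rd X - X = fr X (fun x => ((round x : ℤ) : ℝ) - x) := by
    rw [fr_sub, fr_id hX]; rfl
  rw [h1]
  apply norm_fr_le _ (by norm_num)
  intro x
  rw [abs_sub_comm]
  exact abs_sub_round x

lemma norm_fl_sub_self (X : E →L[ℂ] E) (hX : IsSelfAdjoint X) :
    ‖X - (fl X + ((1 / 2 : ℝ) : ℂ) • 1)‖ ≤ 1 / 2 := by
  have h1 : X - (fl X + ((1 / 2 : ℝ) : ℂ) • 1) = fr X (fun x => x - (((⌊x⌋ : ℤ) : ℝ) + 1 / 2)) := by
    rw [fr_sub, fr_add, fr_id hX, fr_const hX]; rfl
  rw [h1]
  apply norm_fr_le _ (by norm_num)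
  intro x
  have h2 := Int.floor_le x
  have h3 := Int.lt_floor_add_one x
  rw [abs_le]
  constructor <;> linarith

/-- The situation of the local construction. -/
lemma local_aux {X Y X' Y' : E →L[ℂ] E} (hX : IsSelfAdjoint X) (hY : IsSelfAdjoint Y)
    (hX' : IsSelfAdjoint X') (hY' : IsSelfAdjoint Y') (hc : Commute X Y) (hc' : Commute X' Y')
    {ε β δ τ ζ μ ν : ℝ} (hε : ‖X - X'‖ ≤ ε) (hη : ‖Y' - Y‖ ≤ ε)
    (hβ : 4 * ε + Real.pi / 2 * (2 * ε + (1 / 8 + Real.pi / 2 * ε)) ≤ β)
    (hδ : Real.pi * β ≤ δ) (hδ1 : δ < 1) (hτ : 2 * (1 + ε) * ε ≤ τ)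
    (hζ : Real.pi * τ ≤ (1 - δ) * ζ) (hμ : ε + ζ ≤ μ) (hν : μ ≤ (1 - δ) * ν) :
    NP (X + I • Y) (X' + I • Y') (2 + ε + 6 * β + 3 * ν + 2 * μ + ζ) := by
  have hpi := Real.pi_pos
  have hε0 : 0 ≤ ε := (norm_nonneg _).trans hε
  have hβ0 : 0 ≤ β := le_trans (by positivity) hβ
  have hm : 0 < 1 - δ := by linarith
  have hτ0 : 0 ≤ τ := le_trans (by positivity) hτ
  have hζ0 : 0 ≤ ζ := by
    by_contra h
    have h1 : (1 - δ) * ζ < 0 := mul_neg_of_pos_of_neg hm (not_le.1 h)
    have h2 : 0 ≤ Real.pi * τ := by positivity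
    linarith
  have hμ0 : 0 ≤ μ := by linarith
  have hν0 : 0 ≤ ν := by
    by_contra h
    have h1 : (1 - δ) * ν < 0 := mul_neg_of_pos_of_neg hm (not_le.1 h)
    linarith
  set H := rd X with hH
  set J := fl X' with hJ
  set Hb := av J J H with hHb
  have hHs : IsSelfAdjoint H := rd_selfAdjoint X
  have hJs : IsSelfAdjoint J := fl_selfAdjoint X'
  have hHbs : IsSelfAdjoint Hb := by
    unfold IsSelfAdjoint
    rw [hHb, star_av hJs hJs, hHs.star_eq]
  set H' := rd Hb with hH'
  have hH's : IsSelfAdjoint H' := rd_selfAdjoint Hb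
  have hJ1 : ee J (2 * Real.pi) = 1 := ee_int hX' (fun x => ⌊x⌋)
  have hH1 : ee H (2 * Real.pi) = 1 := ee_int hX (fun x => round x)
  have hH'1 : ee H' (2 * Real.pi) = 1 := ee_int hHbs (fun x => round x)
  have hHHb : ‖H - Hb‖ ≤ β := (key hX hX' hε).trans hβ
  have hH'Hb : ‖H' - Hb‖ ≤ β := norm_rd_sub_le hX hHbs hHHb
  have hH'H : ‖H' - H‖ ≤ 2 * β := by
    have : H' - H = (H' - Hb) - (H - Hb) := by abel
    rw [this]
    have := norm_sub_le (H' - Hb) (H - Hb)
    linarith
  -- commutation relations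
  have cHY : Commute H Y := fr_commute_of hX hc _
  have cJY' : Commute J Y' := fr_commute_of hX' hc' _
  have cJHb : Commute J Hb := av_intertwine hJs hJs hJ1 hJ1 H
  have cH'J : Commute H' J := fr_commute_of hHbs cJHb.symm _
  have cH'Hb : Commute H' Hb := fr_commute_of hHbs (Commute.refl Hb) _
  -- the commutator `T`
  set T := Hb * Y' - Y' * Hb with hT
  have hTn : ‖T‖ ≤ τ := by
    set Δ := Y' - Y with hΔ
    set G := H - (J + ((1 / 2 : ℝ) : ℂ) • 1) with hG
    have e1 : av J J (H * Y') = Hb * Y' := av_mul_right hJs cJY' J H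
    have e2 : av J J (Y' * H) = Y' * Hb := av_mul_left hJs cJY' J H
    have e3 : av J J (J * Δ) = J * av J J Δ := av_mul_left hJs (Commute.refl J) J Δ
    have e4 : av J J (Δ * J) = av J J Δ * J := av_mul_right hJs (Commute.refl J) J Δ
    have e5 : J * av J J Δ = av J J Δ * J := av_intertwine hJs hJs hJ1 hJ1 Δ
    have e6 : G * Δ - Δ * G = (H * Y' - Y' * H) - (J * Δ - Δ * J) := by
      have h1 : H * Y = Y * H := cHY.eq
      rw [hG, hΔ]
      simp only [sub_mul, mul_sub, add_mul, mul_add, smul_mul_assoc, mul_smul_comm, one_mul,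
        mul_one, smul_sub, h1]
      abel
    have e7 : T = av J J (G * Δ - Δ * G) := by
      rw [e6, av_sub, av_sub, av_sub, e1, e2, e3, e4, e5, sub_self, sub_zero]
    have hGn : ‖G‖ ≤ 1 + ε := by
      have h1 : G = (H - X) + (X - X') + (X' - (J + ((1 / 2 : ℝ) : ℂ) • 1)) := by
        rw [hG]; abel
      rw [h1]
      have h2 := norm_add_le ((H - X) + (X - X')) (X' - (J + ((1 / 2 : ℝ) : ℂ) • 1))
      have h3 := norm_add_le (H - X) (X - X')
      have h4 := norm_rd_sub_self X hX
      have h5 := norm_fl_sub_self X' hX'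
      rw [← hH] at h4
      rw [← hJ] at h5
      linarith
    rw [e7]
    refine (norm_av_le hJs hJs _).trans ((norm_comm_le G Δ).trans (le_trans ?_ hτ))
    have := norm_nonneg Δ
    have := norm_nonneg G
    gcongr
  -- the new imaginary part
  set Y'' := av H' H' Y' with hY''
  have hY''s : IsSelfAdjoint Y'' := by
    unfold IsSelfAdjoint
    rw [hY'', star_av hH's hH's, hY'.star_eq]
  have cH'Y'' : Commute H' Y'' := av_intertwine hH's hH's hH'1 hH'1 Y'
  have cJY'' : Commute J Y'' := by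
    have e1 : av H' H' (J * Y') = J * Y'' := av_mul_left hH's cH'J H' Y'
    have e2 : av H' H' (Y' * J) = Y'' * J := av_mul_right hH's cH'J H' Y'
    change J * Y'' = Y'' * J
    rw [← e1, ← e2, cJY'.eq]
  set Z := Y' - Y'' with hZ
  have hZn : ‖Z‖ ≤ ζ := by
    have e1 : av H' H' (Hb * Y') = Hb * Y'' := av_mul_left hH's cH'Hb H' Y'
    have e2 : av H' H' (Y' * Hb) = Y'' * Hb := av_mul_right hH's cH'Hb H' Y'
    have e3 : Hb * Z - Z * Hb = T - av H' H' T := by
      rw [hT, av_sub, e1, e2, hZ, mul_sub, sub_mul]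
      abel
    have e4 : av H' H' Z = 0 := by
      rw [hZ, av_sub, av_eq_self hH's hH's cH'Y''.eq, ← hY'', sub_self]
    have h1 : ‖Z‖ ≤ Real.pi / 2 * ‖H' * Z - Z * H'‖ := by
      have := norm_av_sub_le hH's hH's Z
      rw [e4, zero_sub, norm_neg] at this
      exact this
    have e5 : H' * Z - Z * H' = (Hb * Z - Z * Hb) + ((H' - Hb) * Z - Z * (H' - Hb)) := by
      rw [sub_mul H' Hb Z, mul_sub Z H' Hb]; abel
    have h2 : ‖Hb * Z - Z * Hb‖ ≤ 2 * τ := by
      rw [e3]
      have := norm_sub_le T (av H' H' T)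
      have := norm_av_le hH's hH's T
      linarith
    have h3 : ‖(H' - Hb) * Z - Z * (H' - Hb)‖ ≤ 2 * β * ‖Z‖ := by
      refine (norm_comm_le _ _).trans ?_
      gcongr
    have h4 : ‖H' * Z - Z * H'‖ ≤ 2 * τ + 2 * β * ‖Z‖ := by
      rw [e5]
      have := norm_add_le (Hb * Z - Z * Hb) ((H' - Hb) * Z - Z * (H' - Hb))
      linarith
    have h5 : ‖Z‖ ≤ Real.pi * τ + Real.pi * β * ‖Z‖ := by
      calc ‖Z‖ ≤ Real.pi / 2 * ‖H' * Z - Z * H'‖ := h1
        _ ≤ Real.pi / 2 * (2 * τ + 2 * β * ‖Z‖) := by gcongr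
        _ = _ := by ring
    have h6 : Real.pi * β * ‖Z‖ ≤ δ * ‖Z‖ := by
      have := norm_nonneg Z
      gcongr
    have h7 : (1 - δ) * ‖Z‖ ≤ (1 - δ) * ζ := by linarith
    exact le_of_mul_le_mul_left h7 hm
  have hμn : ‖Y - Y''‖ ≤ μ := by
    have : Y - Y'' = -(Y' - Y) + Z := by rw [hZ]; abel
    rw [this]
    have := norm_add_le (-(Y' - Y)) Z
    rw [norm_neg] at this
    linarith
  -- the intertwiner
  set S := av H' H 1 with hS
  have hS1 : ‖S - 1‖ ≤ δ := by
    have h1 := norm_av_sub_le hH's hHs (1 : E →L[ℂ] E)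
    rw [mul_one, one_mul] at h1
    refine h1.trans (le_trans ?_ hδ)
    calc Real.pi / 2 * ‖H' - H‖ ≤ Real.pi / 2 * (2 * β) := by gcongr
      _ = Real.pi * β := by ring
  have hSint : H' * S = S * H := av_intertwine hH's hHs hH'1 hH1 1
  obtain ⟨P, W, hPs, hSW, hW, hW', hP, hWint⟩ := exists_polar hS1 hδ1
  have hWH : H' * W = W * H := hWint H H' hHs hH's hSint
  -- intertwining defect
  set D := S * Y - Y'' * S with hD
  have hDn : ‖D‖ ≤ μ := by
    have e1 : av H' H (1 * Y) = S * Y := av_mul_right hHs cHY H' 1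
    have e2 : av H' H (Y'' * 1) = Y'' * S := av_mul_left hH's cH'Y'' H 1
    have e3 : D = av H' H (Y - Y'') := by
      rw [hD, ← e1, ← e2, one_mul, mul_one, av_sub]
    rw [e3]
    exact (norm_av_le hH's hHs _).trans hμn
  set F := Y - star W * Y'' * W with hF
  have hFs : IsSelfAdjoint F := by
    unfold IsSelfAdjoint
    rw [hF, star_sub, star_mul, star_mul, star_star, hY.star_eq, hY''s.star_eq]
    simp only [mul_assoc]
  have hFn : ‖F‖ ≤ ν := by
    have e1 : star W * D = P * Y - star W * Y'' * W * P := by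
      rw [hD, mul_sub, hSW]
      congr 1
      rw [← mul_assoc, ← mul_assoc, hW, one_mul]
    have e2 : star (star W * D) = Y * P - P * (star W * Y'' * W) := by
      rw [e1, star_sub, star_mul, star_mul, star_mul, star_mul, star_star, hPs.star_eq,
        hY.star_eq, hY''s.star_eq]
      simp only [mul_assoc]
    have e3 : P * F + F * P = star W * D + star (star W * D) := by
      rw [e2, e1, hF, mul_sub, sub_mul]
      abel
    have h1 : ‖star W * D‖ ≤ μ := by
      calc ‖star W * D‖ ≤ ‖star W‖ * ‖D‖ := norm_mul_le _ _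
        _ ≤ 1 * μ := by
            have := norm_star_unitary_le hW
            have := norm_nonneg (star W)
            gcongr
        _ = μ := one_mul μ
    have h2 : ‖P * F + F * P‖ ≤ 2 * μ := by
      rw [e3]
      have := norm_add_le (star W * D) (star (star W * D))
      rw [norm_star] at this
      linarith
    have h3 := lyapunov_bound hFs hm (by positivity) hP h2
    refine h3.trans ?_
    rw [div_le_iff₀ (by positivity)]
    linarith
  have hνn : ‖W * Y * star W - Y''‖ ≤ ν := by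
    have e1 : W * Y * star W - Y'' = W * F * star W := by
      have h1 : W * (star W * Y'' * W) * star W = Y'' := by
        calc W * (star W * Y'' * W) * star W = (W * star W) * Y'' * (W * star W) := by
              simp only [mul_assoc]
          _ = Y'' := by rw [hW', one_mul, mul_one]
      rw [hF, mul_sub, sub_mul, h1]
    rw [e1]
    calc ‖W * F * star W‖ ≤ ‖W‖ * ‖F‖ * ‖star W‖ :=
          (norm_mul_le _ _).trans (mul_le_mul_of_nonneg_right (norm_mul_le _ _) (norm_nonneg _))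
      _ ≤ 1 * ν * 1 := by
          have h1 := norm_unitary_le hW
          have h2 := norm_star_unitary_le hW
          have h3 := norm_nonneg W
          have h4 := norm_nonneg (star W)
          have h5 := norm_nonneg F
          gcongr
      _ = ν := by ring
  have hWs : W * H * star W = H' := by rw [← hWH, mul_assoc, hW', mul_one]
  have hWYs : IsSelfAdjoint (W * Y * star W) := by
    unfold IsSelfAdjoint
    rw [star_mul, star_mul, star_star, hY.star_eq]
    simp only [mul_assoc]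
  have cH'WY : Commute H' (W * Y * star W) := by
    change H' * (W * Y * star W) = W * Y * star W * H'
    rw [← hWs]
    calc W * H * star W * (W * Y * star W) = W * H * (star W * W) * Y * star W := by
          simp only [mul_assoc]
      _ = W * (H * Y) * star W := by rw [hW, mul_one]; simp only [mul_assoc]
      _ = W * (Y * H) * star W := by rw [cHY.eq]
      _ = W * Y * (star W * W) * H * star W := by rw [hW, mul_one]; simp only [mul_assoc]
      _ = _ := by simp only [mul_assoc]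
  -- the pieces
  have hhalf : IsSelfAdjoint (((1 / 2 : ℝ) : ℂ) • (1 : E →L[ℂ] E)) := by
    unfold IsSelfAdjoint
    rw [star_smul, star_one, Complex.star_def, Complex.conj_ofReal]
  have hJhs : IsSelfAdjoint (J + ((1 / 2 : ℝ) : ℂ) • (1 : E →L[ℂ] E)) := hJs.add hhalf
  have cJhY' : Commute (J + ((1 / 2 : ℝ) : ℂ) • (1 : E →L[ℂ] E)) Y' :=
    cJY'.add_left ((Commute.one_left _).smul_left _)
  have cJhY'' : Commute (J + ((1 / 2 : ℝ) : ℂ) • (1 : E →L[ℂ] E)) Y'' :=
    cJY''.add_left ((Commute.one_left _).smul_left _)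
  have p1 : NP (X + I • Y) (H + I • Y) (1 / 2) :=
    (NP.segX hX hHs hY hc cHY).mono (norm_nonneg _) (norm_rd_sub_self X hX)
  have p2 : NP (H + I • Y) (H' + I • (W * Y * star W)) (2 * (2 * β + ν + μ)) := by
    have e1 : W * (H + I • Y) * star W = H' + I • (W * Y * star W) := by
      rw [mul_add, add_mul, hWs, mul_smul_comm, smul_mul_assoc]
    rw [← e1]
    apply NP.rot hS1 hδ1 hPs hSW hW hW' hP (normal_of_commute hHs hY cHY)
    rw [e1]
    have e2 : H' + I • (W * Y * star W) - (H + I • Y) =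
        (H' - H) + I • ((W * Y * star W - Y'') - (Y - Y'')) := by
      simp only [smul_sub]; abel
    rw [e2]
    have h1 := norm_add_le (H' - H) (I • ((W * Y * star W - Y'') - (Y - Y'')))
    rw [norm_smul, Complex.norm_I, one_mul] at h1
    have h2 := norm_sub_le (W * Y * star W - Y'') (Y - Y'')
    linarith
  have p3 : NP (H' + I • (W * Y * star W)) (H' + I • Y'') ν :=
    (NP.segY hH's hWYs hY''s cH'WY cH'Y'').mono (norm_nonneg _) (by
      rw [norm_sub_rev]; exact hνn)
  have p4 : NP (H' + I • Y'') ((J + ((1 / 2 : ℝ) : ℂ) • (1 : E →L[ℂ] E)) + I • Y'')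
      (2 * β + 1 + ε) := by
    refine (NP.segX hH's hJhs hY''s cH'Y'' cJhY'').mono (norm_nonneg _) ?_
    have h1 : (J + ((1 / 2 : ℝ) : ℂ) • (1 : E →L[ℂ] E)) - H' =
        -(X' - (J + ((1 / 2 : ℝ) : ℂ) • (1 : E →L[ℂ] E))) - (X - X') - (H - X) - (H' - H) := by
      abel
    rw [h1]
    have h2 := norm_sub_le (-(X' - (J + ((1 / 2 : ℝ) : ℂ) • (1 : E →L[ℂ] E))) - (X - X') - (H - X))
      (H' - H)
    have h3 := norm_sub_le (-(X' - (J + ((1 / 2 : ℝ) : ℂ) • (1 : E →L[ℂ] E))) - (X - X')) (H - X)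
    have h4 := norm_sub_le (-(X' - (J + ((1 / 2 : ℝ) : ℂ) • (1 : E →L[ℂ] E)))) (X - X')
    rw [norm_neg] at h4
    have h5 := norm_rd_sub_self X hX
    have h6 := norm_fl_sub_self X' hX'
    rw [← hH] at h5
    rw [← hJ] at h6
    linarith
  have p5 : NP ((J + ((1 / 2 : ℝ) : ℂ) • (1 : E →L[ℂ] E)) + I • Y'')
      ((J + ((1 / 2 : ℝ) : ℂ) • (1 : E →L[ℂ] E)) + I • Y') ζ :=
    (NP.segY hJhs hY''s hY' cJhY'' cJhY').mono (norm_nonneg _) hZn
  have p6 : NP ((J + ((1 / 2 : ℝ) : ℂ) • (1 : E →L[ℂ] E)) + I • Y') (X' + I • Y') (1 / 2) :=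
    (NP.segX hJhs hX' hY' cJhY' hc').mono (norm_nonneg _) (norm_fl_sub_self X' hX')
  have q := ((((p1.trans p2 (by norm_num) (by positivity)).trans p3 (by positivity) hν0).trans p4
    (by positivity) (by positivity)).trans p5 (by positivity) hζ0).trans p6 (by positivity)
    (by norm_num)
  refine q.mono (by positivity) (le_of_eq ?_)
  ring

theorem local_path {X Y X' Y' : E →L[ℂ] E} (hX : IsSelfAdjoint X) (hY : IsSelfAdjoint Y)
    (hX' : IsSelfAdjoint X') (hY' : IsSelfAdjoint Y') (hc : Commute X Y) (hc' : Commute X' Y')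
    (hε : ‖X - X'‖ ≤ 1 / 200) (hη : ‖Y - Y'‖ ≤ 1 / 200) :
    NP (X + I • Y) (X' + I • Y') (23 / 4) := by
  have h1 := Real.pi_lt_d4
  have h2 := Real.pi_gt_d4
  have h := local_aux (β := 2445 / 10000) (δ := 7682 / 10000) (τ := 1005 / 100000)
    (ζ := 1363 / 10000) (μ := 1413 / 10000) (ν := 61 / 100) hX hY hX' hY' hc hc' hε
    (by rw [norm_sub_rev]; exact hη) (by nlinarith) (by nlinarith) (by norm_num) (by norm_num)
    (by nlinarith) (by norm_num) (by norm_num)
  exact h.mono (by norm_num) (by norm_num)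

end Pool.Agent.MP6f0508
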