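import Pool.Agent.MP6f0508.Cayley

/-!
# Normal paths (helper for `MP_6f0508_an`)
-/

set_option linter.unusedSectionVars false

open Complex MeasureTheory
open scoped InnerProductSpace ComplexStarModule

namespace Pool.Agent.MP6f0508

section General

variable {𝒜 : Type*} [NormedRing 𝒜] [StarRing 𝒜] [NormedAlgebra ℂ 𝒜]

/-- There is a normal path from `A` to `B` which is `1`-Lipschitz and defined on `[0,ℓ]`. -/
def NP (A B : 𝒜) (ℓ : ℝ) : Prop :=
  ∃ γ : ℝ → 𝒜, (∀ s t, ‖γ t - γ s‖ ≤ |t - s|) ∧ γ 0 = A ∧ γ ℓ = B ∧ ∀ t, IsStarNormal (γ t)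

lemma NP.of_lip {f : ℝ → 𝒜} {L : ℝ} (hL : 0 ≤ L)
    (hf : ∀ s ∈ Set.Icc (0 : ℝ) 1, ∀ t ∈ Set.Icc (0 : ℝ) 1, ‖f t - f s‖ ≤ L * |t - s|)
    (hn : ∀ t ∈ Set.Icc (0 : ℝ) 1, IsStarNormal (f t)) : NP (f 0) (f 1) L := by
  have m0 : (0 : ℝ) ∈ Set.Icc (0 : ℝ) 1 := ⟨le_rfl, zero_le_one⟩
  have m1 : (1 : ℝ) ∈ Set.Icc (0 : ℝ) 1 := ⟨zero_le_one, le_rfl⟩
  rcases eq_or_lt_of_le hL with h0 | hpos
  · have h1 := hf 0 m0 1 m1
    rw [← h0, zero_mul] at h1
    have h2 : f 1 = f 0 := sub_eq_zero.1 (norm_le_zero_iff.1 h1)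
    refine ⟨fun _ => f 0, fun s t => ?_, rfl, h2.symm, fun _ => hn 0 m0⟩
    rw [sub_self, norm_zero]
    exact abs_nonneg _
  · have hc : ∀ t : ℝ, max 0 (min (t / L) 1) ∈ Set.Icc (0 : ℝ) 1 := fun t =>
      ⟨le_max_left _ _, max_le zero_le_one (min_le_right _ _)⟩
    refine ⟨fun t => f (max 0 (min (t / L) 1)), fun s t => ?_, ?_, ?_, fun t => hn _ (hc t)⟩
    · refine (hf _ (hc s) _ (hc t)).trans ?_
      have h1 : |max 0 (min (t / L) 1) - max 0 (min (s / L) 1)| ≤ |t / L - s / L| := by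
        rw [max_comm 0, max_comm 0]
        exact (abs_max_sub_max_le_abs (min (t / L) 1) (min (s / L) 1) 0).trans
          ((abs_min_sub_min_le_max (t / L) 1 (s / L) 1).trans (by simp))
      calc L * |max 0 (min (t / L) 1) - max 0 (min (s / L) 1)| ≤ L * |t / L - s / L| := by gcongr
        _ = |t - s| := by
            rw [← sub_div, abs_div, abs_of_pos hpos]
            field_simp
    · simp
    · simp [div_self hpos.ne']

lemma NP.symm {A B : 𝒜} {ℓ : ℝ} (h : NP A B ℓ) : NP B A ℓ := by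
  obtain ⟨γ, h1, h2, h3, h4⟩ := h
  refine ⟨fun t => γ (ℓ - t), fun s t => ?_, by simp [h3], by simp [h2], fun t => h4 _⟩
  refine (h1 _ _).trans (le_of_eq ?_)
  rw [abs_sub_comm]
  congr 1
  ring

lemma NP.mono {A B : 𝒜} {ℓ ℓ' : ℝ} (h : NP A B ℓ) (h0 : 0 ≤ ℓ) (hle : ℓ ≤ ℓ') : NP A B ℓ' := by
  obtain ⟨γ, h1, h2, h3, h4⟩ := h
  refine ⟨fun t => γ (min t ℓ), fun s t => ?_, ?_, ?_, fun t => h4 _⟩
  · refine (h1 _ _).trans ?_
    exact abs_min_sub_min_le_max _ _ _ _ |>.trans (by simp)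
  · simp only [min_eq_left h0, h2]
  · simp only [min_eq_right hle, h3]

lemma NP.trans {A B C : 𝒜} {a b : ℝ} (h : NP A B a) (h' : NP B C b) (ha : 0 ≤ a) (hb : 0 ≤ b) :
    NP A C (a + b) := by
  obtain ⟨γ, h1, h2, h3, h4⟩ := h
  obtain ⟨ρ, k1, k2, k3, k4⟩ := h'
  refine ⟨fun t => if t ≤ a then γ t else ρ (t - a), fun s t => ?_, ?_, ?_, fun t => ?_⟩
  · have key : ∀ s t : ℝ, s ≤ a → a < t → ‖ρ (t - a) - γ s‖ ≤ |t - s| := by
      intro s t hs ht
      have e1 : ρ (t - a) - γ s = (ρ (t - a) - ρ 0) + (γ a - γ s) := by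
        rw [k2, h3]; abel
      rw [e1]
      refine (norm_add_le _ _).trans ?_
      have e2 := k1 0 (t - a)
      have e3 := h1 s a
      rw [sub_zero, abs_of_pos (by linarith)] at e2
      rw [abs_of_nonneg (by linarith)] at e3
      rw [abs_of_pos (by linarith)]
      linarith
    by_cases hs : s ≤ a
    · by_cases ht : t ≤ a
      · simp only [hs, ht, if_true]
        exact h1 s t
      · simp only [hs, ht, if_true, if_false]
        exact key s t hs (not_le.1 ht)
    · by_cases ht : t ≤ a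
      · simp only [hs, ht, if_true, if_false]
        rw [norm_sub_rev, abs_sub_comm]
        exact key t s ht (not_le.1 hs)
      · simp only [hs, ht, if_false]
        refine (k1 _ _).trans (le_of_eq ?_)
        congr 1
        ring
  · simp only [ha, if_true, h2]
  · rcases eq_or_lt_of_le hb with h0 | hpos
    · rw [← h0, add_zero]
      simp only [le_refl, if_true]
      rw [h3, ← k2, h0, k3]
    · have : ¬ a + b ≤ a := by linarith
      simp only [this, if_false]
      rw [add_sub_cancel_left, k3]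
  · by_cases ht : t ≤ a
    · simp only [ht, if_true]; exact h4 t
    · simp only [ht, if_false]; exact k4 _

lemma NP.scale {A B : 𝒜} {ℓ r : ℝ} [StarModule ℂ 𝒜] (hr : 0 < r)
    (h : NP ((r : ℂ) • A) ((r : ℂ) • B) ℓ) : NP A B (ℓ / r) := by
  obtain ⟨γ, h1, h2, h3, h4⟩ := h
  have hr0 : (r : ℂ) ≠ 0 := by exact_mod_cast hr.ne'
  refine ⟨fun t => ((r : ℂ)⁻¹) • γ (r * t), fun s t => ?_, ?_, ?_, fun t => ?_⟩
  · rw [← smul_sub, norm_smul, norm_inv, Complex.norm_real, Real.norm_eq_abs, abs_of_pos hr]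
    have := h1 (r * s) (r * t)
    rw [← mul_sub, abs_mul, abs_of_pos hr] at this
    calc r⁻¹ * ‖γ (r * t) - γ (r * s)‖ ≤ r⁻¹ * (r * |t - s|) := by gcongr
      _ = |t - s| := by field_simp
  · simp only [mul_zero]
    rw [h2, smul_smul, inv_mul_cancel₀ hr0, one_smul]
  · have : r * (ℓ / r) = ℓ := by field_simp
    simp only [this]
    rw [h3, smul_smul, inv_mul_cancel₀ hr0, one_smul]
  · have := h4 (r * t)
    constructor
    rw [star_smul]
    exact (this.star_comm_self.smul_left _).smul_right _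

end General

variable {E : Type*} [NormedAddCommGroup E] [InnerProductSpace ℂ E] [CompleteSpace E]
  [FiniteDimensional ℂ E]

lemma normal_of_commute {X Y : E →L[ℂ] E} (hX : IsSelfAdjoint X) (hY : IsSelfAdjoint Y)
    (h : Commute X Y) : IsStarNormal (X + I • Y) := by
  constructor
  have h1 : star (X + I • Y) = X - I • Y := by
    rw [star_add, star_smul, hX.star_eq, hY.star_eq]
    simp [sub_eq_add_neg]
  rw [h1]
  have c1 : Commute (X - I • Y) X :=
    (Commute.refl X).sub_left ((h.symm).smul_left I)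
  have c2 : Commute (X - I • Y) (I • Y) :=
    (h.smul_right I).sub_left (Commute.refl _)
  exact c1.add_right c2

lemma NP.segX {X₀ X₁ Y : E →L[ℂ] E} (h0 : IsSelfAdjoint X₀) (h1 : IsSelfAdjoint X₁)
    (hY : IsSelfAdjoint Y) (c0 : Commute X₀ Y) (c1 : Commute X₁ Y) :
    NP (X₀ + I • Y) (X₁ + I • Y) ‖X₁ - X₀‖ := by
  have h := NP.of_lip (f := fun t : ℝ => (X₀ + (t : ℂ) • (X₁ - X₀)) + I • Y) (L := ‖X₁ - X₀‖)
    (norm_nonneg _) (fun s _ t _ => ?_) (fun t _ => ?_)
  · have e0 : X₀ + ((0 : ℝ) : ℂ) • (X₁ - X₀) + I • Y = X₀ + I • Y := by simp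
    have e1 : X₀ + ((1 : ℝ) : ℂ) • (X₁ - X₀) + I • Y = X₁ + I • Y := by simp
    beta_reduce at h
    rw [e0, e1] at h
    exact h
  · have e : (X₀ + (t : ℂ) • (X₁ - X₀)) + I • Y - ((X₀ + (s : ℂ) • (X₁ - X₀)) + I • Y) =
        ((t - s : ℝ) : ℂ) • (X₁ - X₀) := by
      rw [Complex.ofReal_sub, sub_smul]; abel
    beta_reduce
    rw [e, norm_smul, Complex.norm_real, Real.norm_eq_abs, mul_comm]
  · apply normal_of_commute
    · have : IsSelfAdjoint ((t : ℂ) • (X₁ - X₀)) := by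
        unfold IsSelfAdjoint
        rw [star_smul, (h1.sub h0).star_eq, Complex.star_def, Complex.conj_ofReal]
      exact h0.add this
    · exact hY
    · exact c0.add_left ((c1.sub_left c0).smul_left _)

lemma NP.segY {X Y₀ Y₁ : E →L[ℂ] E} (hX : IsSelfAdjoint X) (h0 : IsSelfAdjoint Y₀)
    (h1 : IsSelfAdjoint Y₁) (c0 : Commute X Y₀) (c1 : Commute X Y₁) :
    NP (X + I • Y₀) (X + I • Y₁) ‖Y₁ - Y₀‖ := by
  have h := NP.of_lip (f := fun t : ℝ => X + I • (Y₀ + (t : ℂ) • (Y₁ - Y₀))) (L := ‖Y₁ - Y₀‖)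
    (norm_nonneg _) (fun s _ t _ => ?_) (fun t _ => ?_)
  · have e0 : X + I • (Y₀ + ((0 : ℝ) : ℂ) • (Y₁ - Y₀)) = X + I • Y₀ := by simp
    have e1 : X + I • (Y₀ + ((1 : ℝ) : ℂ) • (Y₁ - Y₀)) = X + I • Y₁ := by simp
    beta_reduce at h
    rw [e0, e1] at h
    exact h
  · have e : X + I • (Y₀ + (t : ℂ) • (Y₁ - Y₀)) - (X + I • (Y₀ + (s : ℂ) • (Y₁ - Y₀))) =
        I • (((t - s : ℝ) : ℂ) • (Y₁ - Y₀)) := by
      rw [Complex.ofReal_sub, sub_smul]
      simp only [smul_add, smul_sub]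
      abel
    beta_reduce
    rw [e, norm_smul, norm_smul, Complex.norm_real, Real.norm_eq_abs, Complex.norm_I, one_mul,
      mul_comm]
  · apply normal_of_commute hX
    · have : IsSelfAdjoint ((t : ℂ) • (Y₁ - Y₀)) := by
        unfold IsSelfAdjoint
        rw [star_smul, (h1.sub h0).star_eq, Complex.star_def, Complex.conj_ofReal]
      exact h0.add this
    · exact c0.add_right ((c1.sub_right c0).smul_right _)

/-- The rotation path. -/
lemma NP.rot {S P W T : E →L[ℂ] E} {δ : ℝ} (hδ : ‖S - 1‖ ≤ δ) (hδ1 : δ < 1)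
    (hPs : IsSelfAdjoint P) (hS : S = W * P) (hW : star W * W = 1) (hW' : W * star W = 1)
    (hP : ∀ v : E, (1 - δ) * ‖v‖ ^ 2 ≤ (⟪v, P v⟫_ℂ).re) (hT : IsStarNormal T) {c : ℝ}
    (hc : ‖W * T * star W - T‖ ≤ c) :
    NP T (W * T * star W) (2 * c) := by
  obtain ⟨K, hK, hWK, hcomm⟩ := exists_cayley hδ hδ1 hPs hS hW hP
  have hc0 : 0 ≤ c := (norm_nonneg _).trans hc
  have h1 : ‖W * T - T * W‖ ≤ c := by
    have e : W * T - T * W = (W * T * star W - T) * W := by
      rw [sub_mul, mul_assoc (W * T), hW, mul_one]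
    rw [e]
    calc ‖(W * T * star W - T) * W‖ ≤ ‖W * T * star W - T‖ * ‖W‖ := norm_mul_le _ _
      _ ≤ c * 1 := by
          have := norm_unitary_le hW
          gcongr
      _ = c := mul_one c
  have h2 : ‖K * T - T * K‖ ≤ c := (hcomm T).trans h1
  have h := NP.of_lip (f := fun t : ℝ => wp K t * T * star (wp K t)) (L := 2 * c)
    (by positivity) (fun s hs t ht => ?_) (fun t _ => ?_)
  · have e0 : wp K 0 * T * star (wp K 0) = T := by
      rw [wp_zero hK, star_one, one_mul, mul_one]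
    have e1 : wp K 1 * T * star (wp K 1) = W * T * star W := by
      rw [wp_one hK hWK]
    beta_reduce at h
    rw [e0, e1] at h
    exact h
  · refine (conj_lipschitz hK T hs.1 ht.1).trans ?_
    gcongr
  · constructor
    have hu := star_wp_mul hK t
    have hTc : star T * T = T * star T := hT.star_comm_self
    change star (wp K t * T * star (wp K t)) * (wp K t * T * star (wp K t)) =
      (wp K t * T * star (wp K t)) * star (wp K t * T * star (wp K t))
    rw [star_mul, star_mul, star_star]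
    calc wp K t * (star T * star (wp K t)) * (wp K t * T * star (wp K t))
        = wp K t * (star T * (star (wp K t) * wp K t) * T) * star (wp K t) := by
          simp only [mul_assoc]
      _ = wp K t * (T * (star (wp K t) * wp K t) * star T) * star (wp K t) := by
          rw [hu, mul_one, mul_one, hTc]
      _ = _ := by simp only [mul_assoc]

end Pool.Agent.MP6f0508
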