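import Pool.Agent.MP6f0508.Key

/-!
# Arguments with eigenvectors (helper for `MP_6f0508_an`)
-/

set_option linter.unusedSectionVars false

open Complex MeasureTheory
open scoped InnerProductSpace

namespace Pool.Agent.MP6f0508

variable {E : Type*} [NormedAddCommGroup E] [InnerProductSpace ℂ E] [CompleteSpace E]
  [FiniteDimensional ℂ E]

lemma exists_eigenvector {a : E →L[ℂ] E} {x : ℝ} (hx : x ∈ spectrum ℝ a) :
    ∃ v : E, v ≠ 0 ∧ a v = (x : ℂ) • v := by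
  rw [spectrum.mem_iff, ContinuousLinearMap.isUnit_iff_bijective] at hx
  have h1 : ¬ Function.Injective (algebraMap ℝ (E →L[ℂ] E) x - a) := by
    intro hinj
    apply hx
    refine ⟨hinj, ?_⟩
    exact (LinearMap.injective_iff_surjective
      (f := ((algebraMap ℝ (E →L[ℂ] E) x - a : E →L[ℂ] E) : E →ₗ[ℂ] E))).1 hinj
  rw [← ContinuousLinearMap.coe_coe, ← LinearMap.ker_eq_bot, Submodule.eq_bot_iff] at h1
  push Not at h1
  obtain ⟨v, hv, hv0⟩ := h1
  refine ⟨v, hv0, ?_⟩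
  rw [LinearMap.mem_ker] at hv
  have h2 : (algebraMap ℝ (E →L[ℂ] E) x - a) v = 0 := hv
  have h3 : (algebraMap ℝ (E →L[ℂ] E) x - a) v = (x : ℂ) • v - a v := by
    rw [Algebra.algebraMap_eq_smul_one]
    simp
  rw [h3] at h2
  exact (sub_eq_zero.1 h2).symm

lemma mul_eq_one_symm {a b : E →L[ℂ] E} (h : a * b = 1) : b * a = 1 := by
  have h1 : (a : E →ₗ[ℂ] E) * (b : E →ₗ[ℂ] E) = 1 := by
    ext v
    exact congrArg (fun f : E →L[ℂ] E => f v) h
  have h2 := mul_eq_one_comm.1 h1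
  ext v
  exact congrArg (fun f : E →ₗ[ℂ] E => f v) h2

/-- perturbation of operators with integer spectrum -/
lemma norm_rd_sub_le {a b : E →L[ℂ] E} (ha : IsSelfAdjoint a) (hb : IsSelfAdjoint b) {β : ℝ}
    (h : ‖rd a - b‖ ≤ β) : ‖rd b - b‖ ≤ β := by
  have hβ : 0 ≤ β := (norm_nonneg _).trans h
  have h1 : rd b - b = fr b (fun x => ((round x : ℤ) : ℝ) - x) := by
    rw [fr_sub, fr_id hb]; rfl
  rw [h1]
  apply norm_fc_le' hb hβ
  intro x hx
  rw [Complex.norm_real, Real.norm_eq_abs, abs_sub_comm]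
  obtain ⟨v, hv0, hv⟩ := exists_eigenvector hx
  set d := |x - round x| with hd
  rcases eq_or_lt_of_le (abs_nonneg (x - round x)) with h0 | hpos
  · rw [hd, ← h0]; exact hβ
  · let u : ℝ → ℝ := fun y => d / (((round y : ℤ) : ℝ) - x)
    have hne : ∀ y : ℝ, ((round y : ℤ) : ℝ) - x ≠ 0 := by
      intro y hy
      have := round_le x (round y)
      rw [abs_sub_comm x ((round y : ℤ) : ℝ), hy, abs_zero] at this
      linarith
    have hu : ∀ y, |u y| ≤ 1 := by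
      intro y
      simp only [u]
      rw [abs_div, abs_of_pos (hd ▸ hpos), div_le_one (abs_pos.2 (hne y)), abs_sub_comm]
      exact round_le x (round y)
    have h2 : fr a u * (rd a - (x : ℂ) • 1) = (d : ℂ) • 1 := by
      have e1 : (rd a - (x : ℂ) • 1) = fr a (fun y => ((round y : ℤ) : ℝ) - x) := by
        rw [fr_sub, fr_const ha]; rfl
      rw [e1, ← fr_mul, ← fr_const ha]
      congr 1
      funext y
      simp only [u]
      rw [div_mul_cancel₀ _ (hne y)]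
    have h3 : (rd a - (x : ℂ) • 1) v = (rd a - b) v := by
      simp only [_root_.sub_apply, _root_.smul_apply, one_apply_eq_self]
      rw [hv]
    have h4 : (d : ℂ) • v = fr a u ((rd a - b) v) := by
      rw [← h3]
      have := congrArg (fun f : E →L[ℂ] E => f v) h2
      simpa using this.symm
    have h5 : d * ‖v‖ ≤ β * ‖v‖ := by
      have e1 : ‖(d : ℂ) • v‖ = d * ‖v‖ := by
        rw [norm_smul, Complex.norm_real, Real.norm_eq_abs, abs_of_pos (hd ▸ hpos)]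
      rw [← e1, h4]
      have e2 := (fr a u).le_opNorm ((rd a - b) v)
      have e3 := (rd a - b).le_opNorm v
      have e4 : ‖fr a u‖ ≤ 1 := norm_fr_le _ zero_le_one hu
      calc ‖fr a u ((rd a - b) v)‖ ≤ ‖fr a u‖ * ‖(rd a - b) v‖ := e2
        _ ≤ 1 * ‖(rd a - b) v‖ := by gcongr
        _ ≤ ‖rd a - b‖ * ‖v‖ := by rw [one_mul]; exact e3
        _ ≤ β * ‖v‖ := by gcongr
    exact le_of_mul_le_mul_right h5 (norm_pos_iff.2 hv0)

lemma inner_star_mul_self (R : E →L[ℂ] E) (v : E) : ⟪v, (star R * R) v⟫_ℂ = ((‖R v‖ ^ 2 : ℝ) : ℂ) := by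
  rw [mul_apply_eq_comp, ContinuousLinearMap.star_eq_adjoint,
    ContinuousLinearMap.adjoint_inner_right, inner_self_eq_norm_sq_to_K]
  norm_cast

lemma inner_selfAdjoint {P : E →L[ℂ] E} (hP : IsSelfAdjoint P) (u v : E) :
    ⟪P u, v⟫_ℂ = ⟪u, P v⟫_ℂ := by
  rw [← ContinuousLinearMap.adjoint_inner_left, ← ContinuousLinearMap.star_eq_adjoint, hP.star_eq]

/-- The Lyapunov estimate: eigenvector form. -/
lemma lyapunov_eigen {P F : E →L[ℂ] E} (hF : IsSelfAdjoint F) {x : ℝ} {v : E}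
    (hv : F v = (x : ℂ) • v) : ⟪v, (P * F + F * P) v⟫_ℂ = 2 * x * ⟪v, P v⟫_ℂ := by
  rw [_root_.add_apply, mul_apply_eq_comp, mul_apply_eq_comp, inner_add_right,
    hv, map_smul, inner_smul_right, ← inner_selfAdjoint hF, hv, inner_smul_left,
    Complex.conj_ofReal]
  ring

lemma lyapunov_bound {P F : E →L[ℂ] E} (hF : IsSelfAdjoint F) {m c : ℝ}
    (hm : 0 < m) (hc : 0 ≤ c) (hP : ∀ v : E, m * ‖v‖ ^ 2 ≤ (⟪v, P v⟫_ℂ).re)
    (h : ‖P * F + F * P‖ ≤ c) : ‖F‖ ≤ c / (2 * m) := by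
  rcases subsingleton_or_nontrivial E with hE | hE
  · have : F = 0 := Subsingleton.elim _ _
    rw [this, norm_zero]
    positivity
  · obtain ⟨x, hx, hxn⟩ : ∃ x ∈ spectrum ℝ F, |x| = ‖F‖ := by
      rcases CStarAlgebra.norm_or_neg_norm_mem_spectrum hF with h | h
      · exact ⟨_, h, abs_of_nonneg (norm_nonneg _)⟩
      · exact ⟨_, h, by rw [abs_neg, abs_of_nonneg (norm_nonneg _)]⟩
    obtain ⟨v, hv0, hv⟩ := exists_eigenvector hx
    have h1 := lyapunov_eigen (P := P) hF hv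
    have h2 : ‖⟪v, (P * F + F * P) v⟫_ℂ‖ ≤ c * ‖v‖ ^ 2 := by
      calc ‖⟪v, (P * F + F * P) v⟫_ℂ‖ ≤ ‖v‖ * ‖(P * F + F * P) v‖ := norm_inner_le_norm _ _
        _ ≤ ‖v‖ * (‖P * F + F * P‖ * ‖v‖) := by
            gcongr
            exact (P * F + F * P).le_opNorm v
        _ ≤ ‖v‖ * (c * ‖v‖) := by gcongr
        _ = c * ‖v‖ ^ 2 := by ring
    have h3 : ‖⟪v, (P * F + F * P) v⟫_ℂ‖ = 2 * |x| * ‖⟪v, P v⟫_ℂ‖ := by
      rw [h1, norm_mul, norm_mul, Complex.norm_real, Real.norm_eq_abs]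
      norm_num
    have h4 : m * ‖v‖ ^ 2 ≤ ‖⟪v, P v⟫_ℂ‖ := (hP v).trans (Complex.re_le_norm _)
    have hv2 : 0 < ‖v‖ ^ 2 := by positivity
    rw [le_div_iff₀ (by positivity), ← hxn]
    have h5 : 2 * |x| * (m * ‖v‖ ^ 2) ≤ c * ‖v‖ ^ 2 := by
      calc 2 * |x| * (m * ‖v‖ ^ 2) ≤ 2 * |x| * ‖⟪v, P v⟫_ℂ‖ := by gcongr
        _ = ‖⟪v, (P * F + F * P) v⟫_ℂ‖ := h3.symm
        _ ≤ _ := h2
    have h6 : (|x| * (2 * m)) * ‖v‖ ^ 2 ≤ c * ‖v‖ ^ 2 := by linarith
    exact le_of_mul_le_mul_right h6 hv2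

/-- Polar decomposition of an operator close to the identity. -/
lemma exists_polar {S : E →L[ℂ] E} {δ : ℝ} (hδ : ‖S - 1‖ ≤ δ) (hδ1 : δ < 1) :
    ∃ P W : E →L[ℂ] E, IsSelfAdjoint P ∧ S = W * P ∧ star W * W = 1 ∧ W * star W = 1 ∧
      (∀ v : E, (1 - δ) * ‖v‖ ^ 2 ≤ (⟪v, P v⟫_ℂ).re) ∧
      (∀ H H' : E →L[ℂ] E, IsSelfAdjoint H → IsSelfAdjoint H' → H' * S = S * H →
        H' * W = W * H) := by
  have hδ0 : 0 ≤ δ := (norm_nonneg _).trans hδ
  have hm : 0 < 1 - δ := by linarith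
  have hlow : ∀ v : E, (1 - δ) * ‖v‖ ≤ ‖S v‖ := by
    intro v
    have h1 : v = S v - (S - 1) v := by simp
    have h2 : ‖v‖ ≤ ‖S v‖ + ‖(S - 1) v‖ := by
      calc ‖v‖ = ‖S v - (S - 1) v‖ := by rw [← h1]
        _ ≤ _ := norm_sub_le _ _
    have h3 : ‖(S - 1) v‖ ≤ δ * ‖v‖ := ((S - 1).le_opNorm v).trans (by gcongr)
    linarith
  set Q := star S * S with hQ
  have hQs : IsSelfAdjoint Q := IsSelfAdjoint.star_mul_self S
  have hspec : ∀ x ∈ spectrum ℝ Q, (1 - δ) ^ 2 ≤ x := by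
    intro x hx
    obtain ⟨v, hv0, hv⟩ := exists_eigenvector hx
    have h1 := inner_star_mul_self S v
    rw [← hQ, hv, inner_smul_right, inner_self_eq_norm_sq_to_K] at h1
    have h6 : ((RCLike.ofReal ‖v‖ : ℂ)) = ((‖v‖ : ℝ) : ℂ) := rfl
    rw [h6] at h1
    have h2 : x * ‖v‖ ^ 2 = ‖S v‖ ^ 2 := by exact_mod_cast h1
    have h3 := hlow v
    have h4 : ((1 - δ) * ‖v‖) ^ 2 ≤ ‖S v‖ ^ 2 :=
      pow_le_pow_left₀ (by positivity) h3 2
    have hv2 : 0 < ‖v‖ ^ 2 := by positivity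
    have h5 : (1 - δ) ^ 2 * ‖v‖ ^ 2 ≤ x * ‖v‖ ^ 2 := by rw [h2, ← mul_pow]; exact h4
    exact le_of_mul_le_mul_right h5 hv2
  have hspec0 : ∀ x ∈ spectrum ℝ Q, 0 < x := fun x hx =>
    lt_of_lt_of_le (by positivity) (hspec x hx)
  have hsqrt : ∀ x ∈ spectrum ℝ Q, 1 - δ ≤ Real.sqrt x := fun x hx =>
    Real.le_sqrt_of_sq_le (hspec x hx)
  set P := fr Q Real.sqrt with hP
  set Pi := fr Q (fun x => 1 / Real.sqrt x) with hPi
  have hPs : IsSelfAdjoint P := fr_selfAdjoint _ _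
  have hPis : IsSelfAdjoint Pi := fr_selfAdjoint _ _
  have hPP : P * P = Q := by
    rw [hP, ← fr_mul]
    have : fr Q (fun x => Real.sqrt x * Real.sqrt x) = fr Q (fun x => x) := by
      apply fc_congr' hQs
      intro x hx
      beta_reduce
      rw [Real.mul_self_sqrt (hspec0 x hx).le]
    rw [this, fr_id hQs]
  have hPiP : Pi * P = 1 := by
    rw [hP, hPi, ← fr_mul]
    have : fr Q (fun x => 1 / Real.sqrt x * Real.sqrt x) = fr Q (fun _ => 1) := by
      apply fc_congr' hQs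
      intro x hx
      have := (Real.sqrt_pos.2 (hspec0 x hx)).ne'
      congr 1
      field_simp
    rw [this, fr_const hQs]
    simp
  have hPPi : P * Pi = 1 := mul_eq_one_symm hPiP
  refine ⟨P, S * Pi, hPs, ?_, ?_, ?_, ?_, ?_⟩
  · rw [mul_assoc, hPiP, mul_one]
  · rw [star_mul, hPis.star_eq]
    calc Pi * star S * (S * Pi) = Pi * (star S * S) * Pi := by simp only [mul_assoc]
      _ = Pi * (P * P) * Pi := by rw [hPP]
      _ = (Pi * P) * (P * Pi) := by simp only [mul_assoc]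
      _ = 1 := by rw [hPiP, hPPi, one_mul]
  · apply mul_eq_one_symm
    rw [star_mul, hPis.star_eq]
    calc Pi * star S * (S * Pi) = Pi * (star S * S) * Pi := by simp only [mul_assoc]
      _ = Pi * (P * P) * Pi := by rw [hPP]
      _ = (Pi * P) * (P * Pi) := by simp only [mul_assoc]
      _ = 1 := by rw [hPiP, hPPi, one_mul]
  · intro v
    set R := fr Q (fun x => Real.sqrt (Real.sqrt x - (1 - δ))) with hR
    have hRs : IsSelfAdjoint R := fr_selfAdjoint _ _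
    have h1 : star R * R = P - ((1 - δ : ℝ) : ℂ) • 1 := by
      rw [hRs.star_eq, hR, ← fr_mul, hP]
      have e1 : fr Q Real.sqrt - ((1 - δ : ℝ) : ℂ) • 1 = fr Q (fun x => Real.sqrt x - (1 - δ)) := by
        rw [fr_sub, fr_const hQs]
      rw [e1]
      apply fc_congr' hQs
      intro x hx
      beta_reduce
      rw [Real.mul_self_sqrt]
      have := hsqrt x hx
      linarith
    have h2 := inner_star_mul_self R v
    rw [h1] at h2
    have h3 : (P - ((1 - δ : ℝ) : ℂ) • 1) v = P v - ((1 - δ : ℝ) : ℂ) • v := by simp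
    rw [h3, inner_sub_right, inner_smul_right, inner_self_eq_norm_sq_to_K] at h2
    have h4 := congrArg Complex.re h2
    rw [Complex.sub_re, Complex.ofReal_re] at h4
    have h5 : (((1 - δ : ℝ) : ℂ) * ((‖v‖ : ℝ) : ℂ) ^ 2).re = (1 - δ) * ‖v‖ ^ 2 := by
      norm_cast
    have h6 : ((RCLike.ofReal ‖v‖ : ℂ)) = ((‖v‖ : ℝ) : ℂ) := rfl
    rw [h6, h5] at h4
    nlinarith [sq_nonneg ‖R v‖]
  · intro H H' hH hH' hHS
    have h1 : Commute Q H := by
      have e1 : star S * H' = H * star S := by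
        have := congrArg star hHS
        rw [star_mul, star_mul, hH.star_eq, hH'.star_eq] at this
        exact this
      change star S * S * H = H * (star S * S)
      rw [mul_assoc, ← hHS, ← mul_assoc, e1, mul_assoc]
    have h2 : Commute Pi H := fr_commute_of hQs h1 _
    rw [← mul_assoc, hHS, mul_assoc, mul_assoc, h2.eq]

end Pool.Agent.MP6f0508
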